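import Pool.Agent.Lib.MP_fd6cd5_an.Defs

open Filter Topology Set
open scoped ENNReal

namespace Pool.Agent.Lib.MP_fd6cd5_an

variable {I : OmegaIdeal}

@[simp] lemma zero_term (n : ℕ) : Linf.term 0 n = 0 := rfl

lemma c0_of_le {x y : Linf} (hy : y ∈ c0 I) (h : ∀ n, |x n| ≤ |y n|) : x ∈ c0 I := by
  intro ε hε
  exact I.subset (hy ε hε) fun n hn => le_trans hn (h n)

lemma c0_of_supp {x : Linf} {A : Set ℕ} (hA : A ∈ I.sets) (h : ∀ n, n ∉ A → x n = 0) :
    x ∈ c0 I := by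
  intro ε hε
  refine I.subset hA fun n hn => ?_
  by_contra hc
  have h1 : ε ≤ |x n| := hn
  rw [h n hc, abs_zero] at h1
  linarith

/-- bounded sequence from a function with a bound -/
noncomputable def mkInf (x : ℕ → ℝ) (C : ℝ) (h : ∀ n, |x n| ≤ C) : Linf :=
  ⟨x, memℓp_infty ⟨C, by rintro _ ⟨n, rfl⟩; simpa [Real.norm_eq_abs] using h n⟩⟩

@[simp] lemma mkInf_apply (x : ℕ → ℝ) (C : ℝ) (h : ∀ n, |x n| ≤ C) (n : ℕ) : mkInf x C h n = x n := rfl

lemma abs_le_norm (x : Linf) (n : ℕ) : |x n| ≤ ‖x‖ := by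
  have := lp.norm_apply_le_norm (by simp) x n
  rwa [Real.norm_eq_abs] at this

lemma norm_le_of {x : Linf} {C : ℝ} (hC : 0 ≤ C) (h : ∀ n, |x n| ≤ C) : ‖x‖ ≤ C :=
  lp.norm_le_of_forall_le hC (fun n => by rw [Real.norm_eq_abs]; exact h n)

open Classical in
/-- restriction of a bounded sequence to a set -/
noncomputable def cut (A : Set ℕ) (x : Linf) : Linf :=
  mkInf (fun n => if n ∈ A then x n else 0) ‖x‖ (by
    intro n
    split_ifs
    · exact abs_le_norm x n
    · simp)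

open Classical in
lemma cut_apply (A : Set ℕ) (x : Linf) (n : ℕ) : cut A x n = if n ∈ A then x n else 0 := rfl

lemma cut_of_mem {A : Set ℕ} {x : Linf} {n : ℕ} (h : n ∈ A) : cut A x n = x n := by
  rw [cut_apply, if_pos h]

lemma cut_of_notMem {A : Set ℕ} {x : Linf} {n : ℕ} (h : n ∉ A) : cut A x n = 0 := by
  rw [cut_apply, if_neg h]

lemma cut_abs_le (A : Set ℕ) (x : Linf) (n : ℕ) : |cut A x n| ≤ |x n| := by
  rw [cut_apply]; split_ifs <;> simp

/-- restriction of an element of `c_{0,I}` to a set -/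
noncomputable def cutX (A : Set ℕ) (x : c0 I) : c0 I := ⟨cut A x.1, c0_of_le x.2 (cut_abs_le A x.1)⟩

lemma cutX_of_mem {A : Set ℕ} {x : c0 I} {n : ℕ} (h : n ∈ A) : (cutX A x).1 n = x.1 n :=
  cut_of_mem h

lemma cutX_of_notMem {A : Set ℕ} {x : c0 I} {n : ℕ} (h : n ∉ A) : (cutX A x).1 n = 0 :=
  cut_of_notMem h

lemma cutX_abs_le (A : Set ℕ) (x : c0 I) (n : ℕ) : |(cutX A x).1 n| ≤ |x.1 n| :=
  cut_abs_le A x.1 n

lemma ext_c0 {x y : c0 I} (h : ∀ n, x.1 n = y.1 n) : x = y :=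
  Subtype.ext (lp.ext (funext h))

@[simp] lemma add_apply' (x y : c0 I) (n : ℕ) : (x + y).1 n = x.1 n + y.1 n := rfl
@[simp] lemma sub_apply' (x y : c0 I) (n : ℕ) : (x - y).1 n = x.1 n - y.1 n := rfl
@[simp] lemma smul_apply' (t : ℝ) (x : c0 I) (n : ℕ) : (t • x).1 n = t * x.1 n := rfl
@[simp] lemma neg_apply' (x : c0 I) (n : ℕ) : (-x).1 n = - x.1 n := rfl
@[simp] lemma zero_apply' (n : ℕ) : (0 : c0 I).1 n = 0 := rfl

lemma cutX_union {A B : Set ℕ} (h : Disjoint A B) (x : c0 I) :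
    cutX (A ∪ B) x = cutX A x + cutX B x := by
  apply ext_c0
  intro n
  rw [add_apply']
  by_cases hA : n ∈ A
  · have hB : n ∉ B := fun hB => (Set.disjoint_left.1 h) hA hB
    rw [cutX_of_mem (Or.inl hA), cutX_of_mem hA, cutX_of_notMem hB, add_zero]
  · by_cases hB : n ∈ B
    · rw [cutX_of_mem (Or.inr hB), cutX_of_notMem hA, cutX_of_mem hB, zero_add]
    · rw [cutX_of_notMem (by simp [hA, hB]), cutX_of_notMem hA, cutX_of_notMem hB, add_zero]

lemma cutX_add_compl (A : Set ℕ) (x : c0 I) : cutX A x + cutX Aᶜ x = x := by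
  apply ext_c0
  intro n
  rw [add_apply']
  by_cases hA : n ∈ A
  · rw [cutX_of_mem hA, cutX_of_notMem (by simpa using hA), add_zero]
  · rw [cutX_of_notMem hA, cutX_of_mem (by simpa using hA), zero_add]

lemma cutX_cutX (A B : Set ℕ) (x : c0 I) : cutX A (cutX B x) = cutX (A ∩ B) x := by
  apply ext_c0
  intro n
  by_cases hA : n ∈ A
  · rw [cutX_of_mem hA]
    by_cases hB : n ∈ B
    · rw [cutX_of_mem hB, cutX_of_mem (⟨hA, hB⟩ : n ∈ A ∩ B)]
    · rw [cutX_of_notMem hB, cutX_of_notMem (fun h => hB h.2)]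
  · rw [cutX_of_notMem hA, cutX_of_notMem (fun h => hA h.1)]

lemma cutX_eq_of {A B : Set ℕ} {x : c0 I} (hx : ∀ n, x.1 n ≠ 0 → (n ∈ A ↔ n ∈ B)) :
    cutX A x = cutX B x := by
  apply ext_c0
  intro n
  by_cases h0 : x.1 n = 0
  · have h1 : (cutX A x).1 n = 0 := by
      have := cutX_abs_le A x n
      rw [h0, abs_zero] at this
      exact abs_eq_zero.1 (le_antisymm this (abs_nonneg _))
    have h2 : (cutX B x).1 n = 0 := by
      have := cutX_abs_le B x n
      rw [h0, abs_zero] at this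
      exact abs_eq_zero.1 (le_antisymm this (abs_nonneg _))
    rw [h1, h2]
  · by_cases hA : n ∈ A
    · rw [cutX_of_mem hA, cutX_of_mem ((hx n h0).1 hA)]
    · rw [cutX_of_notMem hA, cutX_of_notMem (fun h => hA ((hx n h0).2 h))]

lemma norm_le_of' {x : c0 I} {C : ℝ} (hC : 0 ≤ C) (h : ∀ n, |x.1 n| ≤ C) : ‖x‖ ≤ C :=
  norm_le_of hC h

lemma abs_le_norm' (x : c0 I) (n : ℕ) : |x.1 n| ≤ ‖x‖ := abs_le_norm x.1 n

/-- `F f u = sup {f y : y ∈ c_{0,I}, |y| ≤ u}`. -/
noncomputable def F (f : StrongDual ℝ (c0 I)) (u : ℕ → ℝ) : ℝ :=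
  sSup (f '' {y | ∀ n, |y.1 n| ≤ u n})

section F

variable {f : StrongDual ℝ (c0 I)} {u v : ℕ → ℝ} {M : ℝ}

lemma F_ub (hM : ∀ n, u n ≤ M) (h0 : 0 ≤ M) {y : c0 I} (hy : ∀ n, |y.1 n| ≤ u n) :
    f y ≤ ‖f‖ * M := by
  have h1 : ‖y‖ ≤ M := norm_le_of' h0 fun n => (hy n).trans (hM n)
  calc f y ≤ |f y| := le_abs_self _
    _ = ‖f y‖ := (Real.norm_eq_abs _).symm
    _ ≤ ‖f‖ * ‖y‖ := f.le_opNorm y
    _ ≤ ‖f‖ * M := by gcongr

/-- nonnegative bounded functions -/
structure NB (u : ℕ → ℝ) : Prop where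
  nonneg : ∀ n, 0 ≤ u n
  bdd : ∃ M, ∀ n, u n ≤ M

lemma NB.bddAbove (hu : NB u) : BddAbove (f '' {y | ∀ n, |y.1 n| ≤ u n}) := by
  obtain ⟨M, hM⟩ := hu.bdd
  refine ⟨‖f‖ * M, ?_⟩
  rintro _ ⟨y, hy, rfl⟩
  exact F_ub hM ((hu.nonneg 0).trans (hM 0)) hy

lemma NB.le_F (hu : NB u) {y : c0 I} (hy : ∀ n, |y.1 n| ≤ u n) : f y ≤ F f u :=
  le_csSup hu.bddAbove ⟨y, hy, rfl⟩

lemma NB.abs_le_F (hu : NB u) {y : c0 I} (hy : ∀ n, |y.1 n| ≤ u n) : |f y| ≤ F f u := by
  rw [abs_le]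
  constructor
  · have := hu.le_F (f := f) (y := -y) (fun n => by rw [neg_apply', abs_neg]; exact hy n)
    rw [map_neg] at this
    linarith
  · exact hu.le_F hy

lemma NB.F_le (hu : NB u) {r : ℝ} (h : ∀ y : c0 I, (∀ n, |y.1 n| ≤ u n) → f y ≤ r) :
    F f u ≤ r := by
  refine csSup_le ⟨f 0, 0, ?_, rfl⟩ ?_
  · intro n
    rw [zero_apply', abs_zero]; exact hu.nonneg n
  · rintro _ ⟨y, hy, rfl⟩; exact h y hy

lemma NB.F_nonneg (hu : NB u) : 0 ≤ F f u := by
  have := hu.le_F (f := f) (y := 0) (fun n => by rw [zero_apply', abs_zero]; exact hu.nonneg n)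
  simpa using this

lemma NB.F_le_norm (hu : NB u) (h0 : 0 ≤ M) (hM : ∀ n, u n ≤ M) : F f u ≤ ‖f‖ * M :=
  hu.F_le fun _ hy => F_ub hM h0 hy

lemma NB.F_mono (hu : NB u) (hv : NB v) (h : ∀ n, u n ≤ v n) : F f u ≤ F f v :=
  hu.F_le fun _ hy => hv.le_F fun n => (hy n).trans (h n)

lemma NB.add (hu : NB u) (hv : NB v) : NB (fun n => u n + v n) := by
  refine ⟨fun n => add_nonneg (hu.nonneg n) (hv.nonneg n), ?_⟩
  obtain ⟨M, hM⟩ := hu.bdd
  obtain ⟨N, hN⟩ := hv.bdd
  exact ⟨M + N, fun n => add_le_add (hM n) (hN n)⟩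

lemma NB.smul (hu : NB u) {t : ℝ} (ht : 0 ≤ t) : NB (fun n => t * u n) := by
  refine ⟨fun n => mul_nonneg ht (hu.nonneg n), ?_⟩
  obtain ⟨M, hM⟩ := hu.bdd
  exact ⟨t * M, fun n => mul_le_mul_of_nonneg_left (hM n) ht⟩

lemma NB.F_add (hu : NB u) (hv : NB v) : F f (fun n => u n + v n) = F f u + F f v := by
  apply le_antisymm
  · refine (hu.add hv).F_le fun y hy => ?_
    let w : ℕ → ℝ := fun n => max (min (y.1 n : ℝ) (u n)) (-(u n))
    have hw : ∀ n, |w n| ≤ |(y.1 n : ℝ)| := by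
      intro n
      have h0 := hu.nonneg n
      change |max (min (y.1 n : ℝ) (u n)) (-(u n))| ≤ _
      rcases le_total (0 : ℝ) (y.1 n) with h | h
      · rw [abs_of_nonneg h, abs_of_nonneg]
        · apply max_le (min_le_left _ _); linarith
        · exact le_trans (le_min h h0) (le_max_left _ _)
      · rw [abs_of_nonpos h, abs_of_nonpos]
        · rw [min_eq_left (by linarith)]
          have := le_max_left (y.1 n : ℝ) (-(u n))
          linarith
        · apply max_le ((min_le_left _ _).trans h); linarith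
    let y1 : c0 I := ⟨mkInf w ‖y‖ (fun n => (hw n).trans (abs_le_norm' y n)), c0_of_le y.2 hw⟩
    have e1 : ∀ n, y1.1 n = max (min (y.1 n : ℝ) (u n)) (-(u n)) := fun n => rfl
    have h1 : ∀ n, |y1.1 n| ≤ u n := by
      intro n
      rw [e1, abs_le]
      have h0 := hu.nonneg n
      exact ⟨le_max_right _ _, max_le (min_le_right _ _) (by linarith)⟩
    have h2 : ∀ n, |(y - y1).1 n| ≤ v n := by
      intro n
      rw [sub_apply', e1]
      have h0 := hu.nonneg n
      have h0' := hv.nonneg n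
      have hyn := abs_le.1 (hy n)
      rcases le_total (y.1 n) (u n) with h | h
      · rw [min_eq_left h]
        rcases le_total (y.1 n) (-(u n)) with h' | h'
        · rw [max_eq_right h', abs_le]; constructor <;> linarith
        · rw [max_eq_left h', sub_self, abs_zero]; exact h0'
      · rw [min_eq_right h, max_eq_left (by linarith), abs_le]; constructor <;> linarith
    have h3 : f y = f y1 + f (y - y1) := by rw [← map_add]; congr 1; abel
    rw [h3]
    exact add_le_add (hu.le_F h1) (hv.le_F h2)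
  · have key : ∀ y : c0 I, (∀ n, |y.1 n| ≤ u n) → f y ≤ F f (fun n => u n + v n) - F f v := by
      intro y hy
      have : F f v ≤ F f (fun n => u n + v n) - f y := by
        refine hv.F_le fun z hz => ?_
        have h1 : f (y + z) ≤ F f (fun n => u n + v n) := by
          refine (hu.add hv).le_F fun n => ?_
          rw [add_apply']
          exact (abs_add_le _ _).trans (add_le_add (hy n) (hz n))
        rw [map_add] at h1
        linarith
      linarith
    have := hu.F_le key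
    linarith

lemma NB.F_smul (hu : NB u) {t : ℝ} (ht : 0 < t) : F f (fun n => t * u n) = t * F f u := by
  apply le_antisymm
  · refine (hu.smul ht.le).F_le fun y hy => ?_
    have h1 : f (t⁻¹ • y) ≤ F f u := by
      refine hu.le_F fun n => ?_
      rw [smul_apply', abs_mul, abs_of_pos (inv_pos.2 ht), inv_mul_le_iff₀ ht]
      exact hy n
    rw [map_smul, smul_eq_mul, inv_mul_le_iff₀ ht] at h1
    exact h1
  · rw [mul_comm, ← le_div_iff₀ ht]
    refine hu.F_le fun y hy => ?_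
    rw [le_div_iff₀ ht, mul_comm]
    have h1 : f (t • y) ≤ F f (fun n => t * u n) := by
      refine (hu.smul ht.le).le_F fun n => ?_
      rw [smul_apply', abs_mul, abs_of_pos ht]
      exact mul_le_mul_of_nonneg_left (hy n) ht.le
    rwa [map_smul, smul_eq_mul] at h1

open Classical in
/-- indicator function -/
noncomputable def ind (A : Set ℕ) (n : ℕ) : ℝ := if n ∈ A then 1 else 0

lemma ind_of_mem {A : Set ℕ} {n : ℕ} (h : n ∈ A) : ind A n = 1 := if_pos h
lemma ind_of_notMem {A : Set ℕ} {n : ℕ} (h : n ∉ A) : ind A n = 0 := if_neg h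

lemma ind_nonneg (A : Set ℕ) (n : ℕ) : 0 ≤ ind A n := by
  unfold ind; split_ifs <;> norm_num

lemma ind_le_one (A : Set ℕ) (n : ℕ) : ind A n ≤ 1 := by
  unfold ind; split_ifs <;> norm_num

lemma ind_nb (A : Set ℕ) : NB (ind A) := ⟨ind_nonneg A, 1, ind_le_one A⟩

lemma ind_mono {A B : Set ℕ} (h : A ⊆ B) (n : ℕ) : ind A n ≤ ind B n := by
  by_cases hA : n ∈ A
  · rw [ind_of_mem hA, ind_of_mem (h hA)]
  · rw [ind_of_notMem hA]; exact ind_nonneg _ _

/-- the variation of `f` on the set `A` -/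
noncomputable def vr (f : StrongDual ℝ (c0 I)) (A : Set ℕ) : ℝ := F f (ind A)

lemma vr_nonneg (f : StrongDual ℝ (c0 I)) (A : Set ℕ) : 0 ≤ vr f A := (ind_nb A).F_nonneg

lemma vr_mono {A B : Set ℕ} (h : A ⊆ B) : vr f A ≤ vr f B :=
  (ind_nb A).F_mono (ind_nb B) (ind_mono h)

lemma vr_le (f : StrongDual ℝ (c0 I)) (A : Set ℕ) : vr f A ≤ ‖f‖ := by
  have := (ind_nb A).F_le_norm (f := f) zero_le_one (ind_le_one A)
  rwa [mul_one] at this

lemma vr_union {A B : Set ℕ} (h : Disjoint A B) : vr f (A ∪ B) = vr f A + vr f B := by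
  unfold vr
  rw [← (ind_nb A).F_add (ind_nb B)]
  congr 1
  funext n
  by_cases hA : n ∈ A
  · have hB : n ∉ B := fun hB => (Set.disjoint_left.1 h) hA hB
    rw [ind_of_mem (Or.inl hA), ind_of_mem hA, ind_of_notMem hB, add_zero]
  · by_cases hB : n ∈ B
    · rw [ind_of_mem (Or.inr hB), ind_of_notMem hA, ind_of_mem hB, zero_add]
    · rw [ind_of_notMem (by simp [hA, hB]), ind_of_notMem hA, ind_of_notMem hB, add_zero]

lemma vr_union_le {A B : Set ℕ} : vr f (A ∪ B) ≤ vr f A + vr f B := by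
  have h : A ∪ B = A ∪ (B \ A) := by simp
  rw [h, vr_union Set.disjoint_sdiff_right]
  have : vr f (B \ A) ≤ vr f B := vr_mono Set.sdiff_subset
  linarith

lemma vr_biUnion_le {ι : Type*} (s : Finset ι) (A : ι → Set ℕ) :
    vr f (⋃ i ∈ s, A i) ≤ ∑ i ∈ s, vr f (A i) := by
  classical
  induction s using Finset.induction_on with
  | empty =>
    simp only [Finset.notMem_empty, iUnion_of_empty, iUnion_empty, Finset.sum_empty]
    refine (ind_nb _).F_le fun y hy => ?_
    have : y = 0 := ext_c0 fun n => by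
      have := hy n
      rw [ind_of_notMem (by simp)] at this
      exact abs_eq_zero.1 (le_antisymm this (abs_nonneg _))
    rw [this, map_zero]
  | insert a s ha ih =>
    rw [Finset.set_biUnion_insert, Finset.sum_insert ha]
    exact vr_union_le.trans (by linarith)

lemma sum_vr_le {ι : Type*} (s : Finset ι) (A : ι → Set ℕ)
    (hd : ∀ i ∈ s, ∀ j ∈ s, i ≠ j → Disjoint (A i) (A j)) :
    ∑ i ∈ s, vr f (A i) ≤ vr f (⋃ i ∈ s, A i) := by
  classical
  induction s using Finset.induction_on with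
  | empty => simp only [Finset.sum_empty]; exact vr_nonneg _ _
  | insert a s ha ih =>
    rw [Finset.set_biUnion_insert, Finset.sum_insert ha, vr_union]
    · have := ih fun i hi j hj hij =>
        hd i (Finset.mem_insert_of_mem hi) j (Finset.mem_insert_of_mem hj) hij
      linarith
    · rw [Set.disjoint_iUnion₂_right]
      intro i hi
      exact hd a (Finset.mem_insert_self _ _) i (Finset.mem_insert_of_mem hi)
        (fun h => ha (h ▸ hi))

lemma abs_le_vr {A : Set ℕ} {y : c0 I} (h1 : ∀ n, |y.1 n| ≤ ind A n) : |f y| ≤ vr f A :=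
  (ind_nb A).abs_le_F h1

/-- Chebyshev type estimate -/
lemma vr_cheb {z : c0 I} {ε : ℝ} (hε : 0 < ε) :
    ε ^ 2 * vr f {n | ε ≤ |z.1 n|} ≤ F f (fun n => (z.1 n) ^ 2) := by
  unfold vr
  rw [← (ind_nb _).F_smul (by positivity)]
  refine ((ind_nb _).smul (by positivity)).F_mono ⟨fun n => sq_nonneg _, ‖z‖ ^ 2, fun n => ?_⟩ ?_
  · rw [← sq_abs]
    exact pow_le_pow_left₀ (abs_nonneg _) (abs_le_norm' z n) 2
  · intro n
    by_cases h : n ∈ {n | ε ≤ |z.1 n|}
    · rw [ind_of_mem h, mul_one, ← sq_abs (z.1 n)]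
      exact pow_le_pow_left₀ hε.le h 2
    · rw [ind_of_notMem h, mul_zero]; positivity

end F

end Pool.Agent.Lib.MP_fd6cd5_an
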