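import Pool.Agent.Lib.MP_fd6cd5_an.Family

open Filter Topology Set
open scoped ENNReal Cardinal

namespace Pool.Agent.Lib.MP_fd6cd5_an

/-- indicator functions as elements of `ℓ_∞` -/
noncomputable def iL (A : Set ℕ) : Linf :=
  mkInf (ind A) 1 (fun n => by rw [abs_of_nonneg (ind_nonneg A n)]; exact ind_le_one A n)

lemma iL_apply (A : Set ℕ) (n : ℕ) : iL A n = ind A n := rfl

lemma ext_L {x y : Linf} (h : ∀ n, x n = y n) : x = y := lp.ext (funext h)

lemma add_L (x y : Linf) (n : ℕ) : (x + y) n = x n + y n := rfl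
lemma smul_L (t : ℝ) (x : Linf) (n : ℕ) : (t • x) n = t * x n := rfl

lemma iL_union {A B : Set ℕ} (h : Disjoint A B) : iL (A ∪ B) = iL A + iL B := by
  apply ext_L
  intro n
  rw [add_L, iL_apply, iL_apply, iL_apply]
  by_cases hA : n ∈ A
  · have hB : n ∉ B := fun hB => (Set.disjoint_left.1 h) hA hB
    rw [ind_of_mem (Or.inl hA), ind_of_mem hA, ind_of_notMem hB, add_zero]
  · by_cases hB : n ∈ B
    · rw [ind_of_mem (Or.inr hB), ind_of_notMem hA, ind_of_mem hB, zero_add]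
    · rw [ind_of_notMem (by simp [hA, hB]), ind_of_notMem hA, ind_of_notMem hB, add_zero]

lemma iL_mem {I : OmegaIdeal} {A : Set ℕ} : iL A ∈ c0 I ↔ A ∈ I.sets := by
  constructor
  · intro h
    refine I.subset (h 1 one_pos) fun n hn => ?_
    change 1 ≤ |ind A n|
    rw [ind_of_mem hn]; simp
  · intro h
    exact c0_of_supp h fun n hn => ind_of_notMem hn

/-- coordinate functionals -/
noncomputable def ev (n : ℕ) : StrongDual ℝ Linf :=
  LinearMap.mkContinuous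
    { toFun := fun x => x n
      map_add' := fun _ _ => rfl
      map_smul' := fun _ _ => rfl } 1 (fun x => by
        rw [one_mul, Real.norm_eq_abs]
        exact abs_le_norm x n)

lemma ev_apply (n : ℕ) (x : Linf) : ev n x = x n := rfl

/-- values of a functional that vanishes on the finite sets, on the test sets -/
lemma ctbl (g : StrongDual ℝ Linf) (hg : ∀ A : Set ℕ, A.Finite → g (iL A) = 0) :
    {x | g (iL (CC x)) ≠ 0}.Countable := by
  classical
  have h1 : {x | g (iL (CC x)) ≠ 0} ⊆ ⋃ n : ℕ, {x | 1 / ((n : ℝ) + 1) < |g (iL (CC x))|} := by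
    intro x hx
    obtain ⟨n, hn⟩ := exists_nat_one_div_lt (abs_pos.2 hx)
    exact mem_iUnion.2 ⟨n, hn⟩
  refine (countable_iUnion fun n => Set.Finite.countable ?_).mono h1
  by_contra hinf
  obtain ⟨N, hN⟩ := exists_nat_gt (‖g‖ * ((n : ℝ) + 1))
  obtain ⟨F, hF, hFc⟩ := Set.Infinite.exists_subset_card_eq hinf N
  let E : Set ℕ := ⋃ x ∈ F, ⋃ y ∈ F.erase x, CC x ∩ CC y
  have hE : E.Finite := by
    refine F.finite_toSet.biUnion fun x _ => (F.erase x).finite_toSet.biUnion fun y hy => ?_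
    exact CC_inter (Finset.ne_of_mem_erase hy).symm
  have hd : ∀ x ∈ F, ∀ y ∈ F, x ≠ y → ∀ t, t ∈ CC x \ E → t ∉ CC y \ E := by
    intro x hx y hy hxy t ht ht'
    apply ht.2
    simp only [E, mem_iUnion]
    exact ⟨x, hx, y, Finset.mem_erase.2 ⟨hxy.symm, hy⟩, ht.1, ht'.1⟩
  have hval : ∀ x, g (iL (CC x)) = g (iL (CC x \ E)) := by
    intro x
    have e : iL (CC x) = iL (CC x \ E) + iL (CC x ∩ E) := by
      rw [← iL_union, Set.sdiff_union_inter]
      rw [Set.disjoint_left]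
      intro t ht ht'
      exact ht.2 ht'.2
    rw [e, map_add, hg _ (hE.subset inter_subset_right), add_zero]
  let u : Linf := ∑ x ∈ F, (SignType.sign (g (iL (CC x))) : ℝ) • iL (CC x \ E)
  have hu : ∀ t, |u t| ≤ 1 := by
    intro t
    have hut : u t = ∑ x ∈ F, (SignType.sign (g (iL (CC x))) : ℝ) * ind (CC x \ E) t := by
      change ev t u = _
      simp only [u, map_sum]
      refine Finset.sum_congr rfl fun x _ => ?_
      rw [map_smul]
      rfl
    rw [hut]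
    by_cases hex : ∃ x ∈ F, t ∈ CC x \ E
    · obtain ⟨x, hx, hxt⟩ := hex
      rw [Finset.sum_eq_single x]
      · rw [ind_of_mem hxt, mul_one]
        rcases lt_trichotomy (g (iL (CC x))) 0 with h | h | h
        · rw [sign_neg h]; simp
        · rw [h]; simp
        · rw [sign_pos h]; simp
      · intro y hy hyx
        rw [ind_of_notMem (hd x hx y hy hyx.symm t hxt), mul_zero]
      · intro h; exact absurd hx h
    · rw [Finset.sum_eq_zero]
      · simp
      · intro x hx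
        rw [ind_of_notMem (fun h => hex ⟨x, hx, h⟩), mul_zero]
  have hun : ‖u‖ ≤ 1 := norm_le_of zero_le_one hu
  have hgu : g u = ∑ x ∈ F, |g (iL (CC x))| := by
    simp only [u, map_sum, map_smul, smul_eq_mul]
    refine Finset.sum_congr rfl fun x _ => ?_
    rw [← hval, sign_mul_self]
  have h2 : ∑ x ∈ F, 1 / ((n : ℝ) + 1) ≤ ∑ x ∈ F, |g (iL (CC x))| :=
    Finset.sum_le_sum fun x hx => (hF hx).le
  rw [← hgu, Finset.sum_const, hFc, nsmul_eq_mul] at h2
  have h3 : g u ≤ ‖g‖ := by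
    calc g u ≤ |g u| := le_abs_self _
      _ = ‖g u‖ := (Real.norm_eq_abs _).symm
      _ ≤ ‖g‖ * ‖u‖ := g.le_opNorm u
      _ ≤ ‖g‖ * 1 := by gcongr
      _ = ‖g‖ := mul_one _
  have h4 : (N : ℝ) * (1 / ((n : ℝ) + 1)) ≤ ‖g‖ := h2.trans h3
  have h5 : (0 : ℝ) < (n : ℝ) + 1 := by positivity
  rw [mul_one_div, div_le_iff₀ h5] at h4
  linarith

lemma ctbl_op (R : Linf →L[ℝ] Linf) (hR : ∀ A : Set ℕ, A.Finite → R (iL A) = 0) :
    {x | R (iL (CC x)) ≠ 0}.Countable := by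
  have h1 : {x | R (iL (CC x)) ≠ 0} ⊆ ⋃ n : ℕ, {x | ((ev n).comp R) (iL (CC x)) ≠ 0} := by
    intro x hx
    by_contra hc
    simp only [mem_iUnion, mem_ofPred_eq, not_exists, not_not] at hc
    exact hx (ext_L fun n => hc n)
  refine (countable_iUnion fun n => ctbl _ fun A hA => ?_).mono h1
  change (R (iL A)) n = 0
  rw [hR A hA]; rfl

lemma exists_ext {I : OmegaIdeal} (S : c0 I →L[ℝ] Linf) :
    ∃ S' : Linf →L[ℝ] Linf, ∀ x : c0 I, S' x = S x := by
  have h : ∀ n : ℕ, ∃ g : StrongDual ℝ Linf, (∀ x : c0 I, g x = S x n) ∧ ‖g‖ ≤ ‖S‖ := by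
    intro n
    obtain ⟨g, hg1, hg2⟩ := exists_extension_norm_eq (c0 I) ((ev n).comp S)
    refine ⟨g, fun x => hg1 x, ?_⟩
    rw [hg2]
    refine ContinuousLinearMap.opNorm_le_bound _ (norm_nonneg S) fun x => ?_
    calc ‖((ev n).comp S) x‖ = |(S x) n| := rfl
      _ ≤ ‖S x‖ := abs_le_norm _ _
      _ ≤ ‖S‖ * ‖x‖ := S.le_opNorm x
  choose g hg1 hg2 using h
  have hb : ∀ (x : Linf) (n : ℕ), |g n x| ≤ ‖S‖ * ‖x‖ := by
    intro x n
    calc |g n x| = ‖g n x‖ := (Real.norm_eq_abs _).symm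
      _ ≤ ‖g n‖ * ‖x‖ := (g n).le_opNorm x
      _ ≤ ‖S‖ * ‖x‖ := mul_le_mul_of_nonneg_right (hg2 n) (norm_nonneg _)
  let L : Linf →ₗ[ℝ] Linf :=
    { toFun := fun x => mkInf (fun n => g n x) (‖S‖ * ‖x‖) (hb x)
      map_add' := fun x y => ext_L fun n => by
        rw [add_L, mkInf_apply, mkInf_apply, mkInf_apply, map_add]
      map_smul' := fun t x => ext_L fun n => by
        rw [RingHom.id_apply, smul_L, mkInf_apply, mkInf_apply, map_smul, smul_eq_mul] }
  refine ⟨L.mkContinuous ‖S‖ fun x => norm_le_of (by positivity) fun n => hb x n, fun x => ?_⟩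
  exact ext_L fun n => hg1 n x

/-- the unit vectors as members of `c_{0,I}` -/
noncomputable def ee (I : OmegaIdeal) (k : ℕ) : c0 I := ⟨iL {k}, iL_mem.2 (I.finite (finite_singleton k))⟩

lemma iL_finite (I : OmegaIdeal) (A : Finset ℕ) : iL (A : Set ℕ) = ∑ k ∈ A, (ee I k : Linf) := by
  classical
  induction A using Finset.induction_on with
  | empty =>
    rw [Finset.sum_empty]
    apply ext_L
    intro n
    rw [iL_apply, ind_of_notMem (by simp)]; rfl
  | insert a s ha ih =>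
    rw [Finset.sum_insert ha, ← ih, Finset.coe_insert, insert_eq, iL_union]
    · rfl
    · rw [disjoint_singleton_left]; simpa using ha

lemma one_side {S₁ S₂ S' : Set (ℕ → Bool)} (T₁ : c0 (II S₁) ≃L[ℝ] c0 (II S'))
    (T₂ : c0 (II S₂) ≃L[ℝ] c0 (II S'))
    (h : ∀ k, (T₁ (ee _ k) : Linf) = T₂ (ee _ k)) : (S₁ \ S₂).Countable := by
  obtain ⟨T1, hT1⟩ := exists_ext ((c0 (II S')).subtypeL.comp (T₁ : c0 (II S₁) →L[ℝ] c0 (II S')))
  obtain ⟨T2, hT2⟩ := exists_ext ((c0 (II S')).subtypeL.comp (T₂ : c0 (II S₂) →L[ℝ] c0 (II S')))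
  obtain ⟨U2, hU2⟩ := exists_ext ((c0 (II S₂)).subtypeL.comp
    (T₂.symm : c0 (II S') →L[ℝ] c0 (II S₂)))
  have hT1' : ∀ x : c0 (II S₁), T1 x = (T₁ x : Linf) := fun x => hT1 x
  have hT2' : ∀ x : c0 (II S₂), T2 x = (T₂ x : Linf) := fun x => hT2 x
  have hU2' : ∀ x : c0 (II S'), U2 x = (T₂.symm x : Linf) := fun x => hU2 x
  have c1 : {x | (T1 - T2) (iL (CC x)) ≠ 0}.Countable := by
    apply ctbl_op
    intro A hA
    obtain ⟨A, rfl⟩ := hA.exists_finset_coe
    rw [sub_apply, sub_eq_zero]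
    have e1 : T1 (iL (A : Set ℕ)) = ∑ k ∈ A, (T₁ (ee _ k) : Linf) := by
      rw [iL_finite (II S₁), map_sum]
      exact Finset.sum_congr rfl fun k _ => hT1' _
    have e2 : T2 (iL (A : Set ℕ)) = ∑ k ∈ A, (T₂ (ee _ k) : Linf) := by
      rw [iL_finite (II S₂), map_sum]
      exact Finset.sum_congr rfl fun k _ => hT2' _
    rw [e1, e2]
    exact Finset.sum_congr rfl fun k _ => h k
  have c2 : {x | (U2.comp T2 - ContinuousLinearMap.id ℝ Linf) (iL (CC x)) ≠ 0}.Countable := by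
    apply ctbl_op
    intro A hA
    have hm : iL A ∈ c0 (II S₂) := iL_mem.2 ((II S₂).finite hA)
    change U2 (T2 (iL A)) - iL A = 0
    have e1 : T2 (iL A) = (T₂ ⟨iL A, hm⟩ : Linf) := hT2' ⟨iL A, hm⟩
    rw [e1, hU2', ContinuousLinearEquiv.symm_apply_apply, sub_self]
  refine (c1.union c2).mono ?_
  rintro x ⟨hx1, hx2⟩
  by_contra hc
  simp only [mem_union, mem_ofPred_eq, not_or, not_not] at hc
  obtain ⟨h1, h2⟩ := hc
  have h1' : T1 (iL (CC x)) = T2 (iL (CC x)) := sub_eq_zero.1 h1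
  have h2' : U2 (T2 (iL (CC x))) = iL (CC x) := sub_eq_zero.1 h2
  have hm : iL (CC x) ∈ c0 (II S₁) := iL_mem.2 (CC_mem.2 hx1)
  have h3 : T2 (iL (CC x)) ∈ c0 (II S') := by
    rw [← h1']
    have : T1 (iL (CC x)) = (T₁ ⟨iL (CC x), hm⟩ : Linf) := hT1' ⟨iL (CC x), hm⟩
    rw [this]
    exact (T₁ ⟨iL (CC x), hm⟩).2
  have h4 : iL (CC x) ∈ c0 (II S₂) := by
    rw [← h2']
    have : U2 (T2 (iL (CC x))) = (T₂.symm ⟨T2 (iL (CC x)), h3⟩ : Linf) :=
      hU2' ⟨T2 (iL (CC x)), h3⟩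
    rw [this]
    exact (T₂.symm _).2
  exact hx2 (CC_mem.1 (iL_mem.1 h4))

lemma both_sides {S₁ S₂ S' : Set (ℕ → Bool)} (T₁ : c0 (II S₁) ≃L[ℝ] c0 (II S'))
    (T₂ : c0 (II S₂) ≃L[ℝ] c0 (II S'))
    (h : ∀ k, (T₁ (ee _ k) : Linf) = T₂ (ee _ k)) : (symmDiff S₁ S₂).Countable := by
  rw [Set.symmDiff_def]
  exact (one_side T₁ T₂ h).union (one_side T₂ T₁ fun k => (h k).symm)

/-- the isomorphism class of the space attached to `S` -/
noncomputable def cls (S : Set (ℕ → Bool)) : Quotient isoSetoid :=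
  Quotient.mk isoSetoid ⟨II S, groth_pp (JJ S)⟩

lemma mk_cantor : #(ℕ → Bool) = 𝔠 := by simp

lemma mk_countable_le : #{t : Set (ℕ → Bool) // t.Countable} ≤ 𝔠 := by
  have h1 := Cardinal.mk_bounded_set_le (ℕ → Bool) ℵ₀
  rw [mk_cantor] at h1
  have h2 : #{t : Set (ℕ → Bool) // t.Countable} = #{t : Set (ℕ → Bool) // #t ≤ ℵ₀} := by
    congr 1
    apply congrArg
    funext t
    exact propext Cardinal.le_aleph0_iff_set_countable.symm
  rw [h2]
  refine h1.trans ?_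
  rw [max_eq_left Cardinal.aleph0_le_continuum, Cardinal.continuum_power_aleph0]

lemma fiber_le (y : Quotient isoSetoid) : #{S // cls S = y} ≤ 𝔠 := by
  classical
  rcases isEmpty_or_nonempty {S // cls S = y} with he | ⟨⟨S', hS'⟩⟩
  · rw [Cardinal.mk_eq_zero]; exact zero_le
  · have h1 : ∀ S : {S // cls S = y}, Nonempty (c0 (II S.1) ≃L[ℝ] c0 (II S')) := by
      rintro ⟨S, hS⟩
      have h : SameClass ⟨II S, groth_pp (JJ S)⟩ ⟨II S', groth_pp (JJ S')⟩ :=
        Quotient.exact (hS.trans hS'.symm)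
      exact h
    let T := fun S : {S // cls S = y} => (h1 S).some
    let μ : {S // cls S = y} → (ℕ → ℕ → ℝ) := fun S k n => (T S (ee _ k) : Linf) n
    have hμ : ∀ S₁ S₂, μ S₁ = μ S₂ → (symmDiff S₁.1 S₂.1).Countable := by
      intro S₁ S₂ h
      refine both_sides (T S₁) (T S₂) fun k => ext_L fun n => ?_
      exact congrFun (congrFun h k) n
    -- representatives
    have h2 : ∀ a : ℕ → ℕ → ℝ, ∃ S₀ : Set (ℕ → Bool), ∀ S, μ S = a →
        (symmDiff S.1 S₀).Countable := by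
      intro a
      by_cases h : ∃ S₀, μ S₀ = a
      · obtain ⟨S₀, h⟩ := h
        exact ⟨S₀.1, fun S hS => hμ S S₀ (hS.trans h.symm)⟩
      · exact ⟨∅, fun S hS => absurd ⟨S, hS⟩ h⟩
    choose R hR using h2
    let ι : {S // cls S = y} → (ℕ → ℕ → ℝ) × {t : Set (ℕ → Bool) // t.Countable} :=
      fun S => (μ S, ⟨symmDiff S.1 (R (μ S)), hR _ S rfl⟩)
    have hι : Function.Injective ι := by
      intro S₁ S₂ h
      have e1 : μ S₁ = μ S₂ := congrArg Prod.fst h
      have e2 : symmDiff S₁.1 (R (μ S₁)) = symmDiff S₂.1 (R (μ S₂)) :=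
        congrArg (fun p => p.2.1) h
      rw [e1] at e2
      exact Subtype.ext (symmDiff_left_injective _ e2)
    refine (Cardinal.mk_le_of_injective hι).trans ?_
    rw [Cardinal.mk_prod, Cardinal.lift_id, Cardinal.lift_id]
    have h3 : #(ℕ → ℕ → ℝ) = 𝔠 := by simp [Cardinal.mk_real]
    rw [h3]
    calc 𝔠 * #{t : Set (ℕ → Bool) // t.Countable} ≤ 𝔠 * 𝔠 := by
          gcongr; exact mk_countable_le
      _ = 𝔠 := Cardinal.continuum_mul_self

theorem lower : (2 : Cardinal.{0}) ^ 𝔠 ≤ #(Quotient isoSetoid) := by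
  by_contra hcon
  rw [not_le] at hcon
  have h1 : #(Set (ℕ → Bool)) = 2 ^ 𝔠 := by rw [Cardinal.mk_set, mk_cantor]
  have h2 : #(Set (ℕ → Bool)) = Cardinal.sum fun y => #{S // cls S = y} := by
    rw [← Cardinal.mk_sigma]
    exact Cardinal.mk_congr (Equiv.sigmaFiberEquiv cls).symm
  have h3 : (Cardinal.sum fun y => #{S // cls S = y}) ≤ #(Quotient isoSetoid) * 𝔠 := by
    refine (Cardinal.sum_le_sum _ _ fun y => fiber_le y).trans ?_
    rw [Cardinal.sum_const, Cardinal.lift_id, Cardinal.lift_id]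
  have h4 : #(Quotient isoSetoid) * 𝔠 < 2 ^ 𝔠 :=
    Cardinal.mul_lt_of_lt (Cardinal.aleph0_le_continuum.trans (Cardinal.cantor _).le) hcon
      (Cardinal.cantor _)
  rw [← h2, h1] at h3
  exact absurd (h3.trans_lt h4) (lt_irrefl _)

theorem upper : #(Quotient isoSetoid) ≤ (2 : Cardinal.{0}) ^ 𝔠 := by
  have h1 : #(Quotient isoSetoid) ≤ #GrothIdeal := Cardinal.mk_quotient_le
  have h2 : #GrothIdeal ≤ #(Set (Set ℕ)) := by
    refine Cardinal.mk_le_of_injective (f := fun I : GrothIdeal => I.1.sets) ?_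
    rintro ⟨⟨s, _, _, _, _⟩, hs⟩ ⟨⟨t, _, _, _, _⟩, ht⟩ h
    have : s = t := h
    subst this
    rfl
  have h3 : #(Set (Set ℕ)) = 2 ^ 𝔠 := by
    rw [Cardinal.mk_set, Cardinal.mk_set, Cardinal.mk_nat, Cardinal.two_power_aleph0]
  exact h1.trans (h2.trans h3.le)

end Pool.Agent.Lib.MP_fd6cd5_an
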