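import Mathlib

open Filter Topology Set
open scoped ENNReal

namespace Pool.Agent.Lib.MP_fd6cd5_an

/-- An ideal on `ω = ℕ`: a family of subsets closed under finite unions and under subsets,
containing every finite set and proper (`ω` is not a member). -/
structure OmegaIdeal where
  sets : Set (Set ℕ)
  union : ∀ ⦃A⦄, A ∈ sets → ∀ ⦃B⦄, B ∈ sets → A ∪ B ∈ sets
  subset : ∀ ⦃A⦄, A ∈ sets → ∀ ⦃B⦄, B ⊆ A → B ∈ sets
  finite : ∀ ⦃A : Set ℕ⦄, A.Finite → A ∈ sets
  proper : Set.univ ∉ sets

/-- The real Banach space `ℓ_∞` of bounded real sequences, with the supremum norm. -/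
def Linf : Type := lp (fun _ : ℕ => ℝ) ∞

noncomputable instance : NormedAddCommGroup Linf :=
  lp.normedAddCommGroup (E := fun _ : ℕ => ℝ) (p := ∞)

noncomputable instance : NormedSpace ℝ Linf :=
  lp.instNormedSpace (𝕜 := ℝ) (E := fun _ : ℕ => ℝ) (p := ∞)

/-- The `n`-th term `x n` of a bounded sequence. -/
def Linf.term (x : Linf) (n : ℕ) : ℝ := x.1 n

instance : CoeFun Linf (fun _ => ℕ → ℝ) := ⟨Linf.term⟩

/-- The space `c_{0,I}` of all bounded real sequences `x` with `I-lim x = 0`, as a linear subspace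
of `ℓ_∞` (with the supremum norm). -/
def c0 (I : OmegaIdeal) : Submodule ℝ Linf where
  carrier := {x | ∀ ε : ℝ, 0 < ε → {n | ε ≤ |x n|} ∈ I.sets}
  add_mem' := by
    intro x y hx hy ε hε
    refine I.subset (I.union (hx (ε / 2) (by positivity)) (hy (ε / 2) (by positivity))) ?_
    intro n hn
    have hadd : (x + y) n = x n + y n := rfl
    simp only [mem_ofPred_eq, hadd, mem_union] at hn ⊢
    by_contra h
    push Not at h
    have := abs_add_le (x n) (y n)
    linarith [h.1, h.2]
  zero_mem' := by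
    intro ε hε
    have h0 : ∀ n, (0 : Linf) n = 0 := fun n => rfl
    have : {n : ℕ | ε ≤ |(0 : Linf) n|} = ∅ := by
      ext n; simp [h0]; exact hε
    rw [this]; exact I.finite finite_empty
  smul_mem' := by
    intro c x hx ε hε
    refine I.subset (hx (ε / (|c| + 1)) (by positivity)) ?_
    intro n hn
    have hsmul : (c • x) n = c * x n := rfl
    simp only [mem_ofPred_eq, hsmul, abs_mul] at hn ⊢
    rw [div_le_iff₀ (by positivity)]
    nlinarith [abs_nonneg (x n), abs_nonneg c]

/-- The Banach space `c_{0,I}`. -/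
def C0 (I : OmegaIdeal) : Type := c0 I

noncomputable instance (I : OmegaIdeal) : NormedAddCommGroup (C0 I) :=
  Submodule.normedAddCommGroup (c0 I)

noncomputable instance (I : OmegaIdeal) : NormedSpace ℝ (C0 I) :=
  Submodule.normedSpace (c0 I)

/-- The sequence `u` in the Banach space `Y` is weakly null. -/
def WeaklyNull {Y : Type} [NormedAddCommGroup Y] [NormedSpace ℝ Y] (u : ℕ → Y) : Prop :=
  ∀ φ : StrongDual ℝ Y, Tendsto (fun n => φ (u n)) atTop (𝓝 0)

/-- The sequence `f` in the dual of the Banach space `X` is weak* null. -/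
def WeakStarNull {X : Type} [NormedAddCommGroup X] [NormedSpace ℝ X]
    (f : ℕ → StrongDual ℝ X) : Prop :=
  ∀ x : X, Tendsto (fun n => f n x) atTop (𝓝 0)

/-- `X` is a Grothendieck space: every weak* null sequence in the dual of `X` is weakly null. -/
def IsGrothendieck (X : Type) [NormedAddCommGroup X] [NormedSpace ℝ X] : Prop :=
  ∀ f : ℕ → StrongDual ℝ X, WeakStarNull f → WeaklyNull f

/-- `X` and `Y` are isomorphic as Banach spaces: there is a linear homeomorphism. -/
def Isomorphic (X Y : Type) [NormedAddCommGroup X] [NormedSpace ℝ X] [NormedAddCommGroup Y]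
    [NormedSpace ℝ Y] : Prop := Nonempty (X ≃L[ℝ] Y)

/-- The ideals `I` on `ω` for which `c_{0,I}` is a Grothendieck space. -/
def GrothIdeal : Type := {I : OmegaIdeal // IsGrothendieck (C0 I)}

/-- `c_{0,I}` and `c_{0,J}` are isomorphic. -/
def SameClass (I J : GrothIdeal) : Prop := Isomorphic (C0 I.1) (C0 J.1)

lemma sameClass_equivalence : Equivalence SameClass where
  refl := fun _ => ⟨ContinuousLinearEquiv.refl ℝ _⟩
  symm := fun ⟨e⟩ => ⟨e.symm⟩
  trans := fun ⟨e⟩ ⟨e'⟩ => ⟨e.trans e'⟩

/-- Isomorphism of the Grothendieck spaces `c_{0,I}` as an equivalence relation. -/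
def isoSetoid : Setoid GrothIdeal := ⟨SameClass, sameClass_equivalence⟩

end Pool.Agent.Lib.MP_fd6cd5_an
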