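import Pool.Agent.Lib.MP_fd6cd5_an.Hump

open Filter Topology Set
open scoped ENNReal

namespace Pool.Agent.Lib.MP_fd6cd5_an

variable {I : OmegaIdeal}

lemma uf_biInter (𝒰 : Ultrafilter ℕ) {α : Type*} (s : Finset α) (S : α → Set ℕ)
    (h : ∀ a ∈ s, S a ∈ 𝒰) : (⋂ a ∈ s, S a) ∈ 𝒰 :=
  (Filter.biInter_finset_mem (f := (𝒰 : Filter ℕ)) s).2 h

/-- Rosenthal's lemma. -/
lemma rosenthal (δ : ℝ) (hδ : 0 < δ) (N : ℕ) : ∀ (v : ℕ → Set ℕ → ℝ) (B : ℕ → Set ℕ),
    (∀ i A A', A ⊆ A' → v i A ≤ v i A') →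
    (∀ i A A', Disjoint A A' → v i (A ∪ A') = v i A + v i A') →
    (∀ i j, i ≠ j → Disjoint (B i) (B j)) → (∀ i, v i (⋃ j, B j) ≤ N * δ) →
    ∃ ψ : ℕ → ℕ, Function.Injective ψ ∧ ∀ i, v (ψ i) (⋃ j ∈ {j | j ≠ i}, B (ψ j)) < δ := by
  induction N with
  | zero =>
    intro v B hm hadd hd hN
    refine ⟨id, Function.injective_id, fun i => ?_⟩
    have h1 : v i (⋃ j ∈ {j | j ≠ i}, B j) ≤ v i (⋃ j, B j) :=
      hm _ _ _ (iUnion₂_subset fun j _ => subset_iUnion B j)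
    have h2 := hN i
    simp only [Nat.cast_zero, zero_mul] at h2
    exact lt_of_le_of_lt (h1.trans h2) hδ
  | succ N ih =>
    intro v B hm hadd hd hN
    by_contra hcon
    push Not at hcon
    have h1 : ∀ i, ∃ j, δ ≤ v (Nat.pair i j) (⋃ l ∈ {l | l ≠ j}, B (Nat.pair i l)) := by
      intro i
      obtain ⟨j, hj⟩ := hcon (fun j => Nat.pair i j) (fun a b hab => by
        have := congrArg (fun n => (Nat.unpair n).2) hab
        simpa using this)
      exact ⟨j, hj⟩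
    choose j hj using h1
    let κ : ℕ → ℕ := fun i => Nat.pair i (j i)
    have hκ : Function.Injective κ := fun a b hab => by
      have := congrArg (fun n => (Nat.unpair n).1) hab
      simpa [κ] using this
    obtain ⟨ψ, hψ, hψ'⟩ := ih (fun i => v (κ i)) (fun i => B (κ i)) (fun i => hm (κ i))
      (fun i => hadd (κ i)) (fun a b hab => hd _ _ fun h => hab (hκ h)) (by
        intro i
        have hdis : Disjoint (⋃ l, B (κ l)) (⋃ l ∈ {l | l ≠ j i}, B (Nat.pair i l)) := by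
          rw [disjoint_iUnion_left]
          intro l
          rw [disjoint_iUnion₂_right]
          intro l' hl'
          apply hd
          intro h
          have e1 : l = i := by
            have := congrArg (fun n => (Nat.unpair n).1) h
            simpa [κ] using this
          have e2 : j l = l' := by
            have := congrArg (fun n => (Nat.unpair n).2) h
            simpa [κ] using this
          exact hl' (by rw [← e2, e1])
        have h2 := hadd (κ i) _ _ hdis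
        have h3 : v (κ i) ((⋃ l, B (κ l)) ∪ ⋃ l ∈ {l | l ≠ j i}, B (Nat.pair i l)) ≤
            v (κ i) (⋃ n, B n) := by
          apply hm
          apply union_subset
          · exact iUnion_subset fun l => subset_iUnion B _
          · exact iUnion₂_subset fun l _ => subset_iUnion B _
        have h4 := hN (κ i)
        have h5 := hj i
        push_cast at h4
        have h6 : v (κ i) (⋃ l ∈ {l | l ≠ j i}, B (Nat.pair i l)) =
          v (Nat.pair i (j i)) (⋃ l ∈ {l | l ≠ j i}, B (Nat.pair i l)) := rfl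
        change v (κ i) (⋃ l, B (κ l)) ≤ N * δ
        linarith)
    obtain ⟨i, hi⟩ := hcon (κ ∘ ψ) (hκ.comp hψ)
    have := hψ' i
    simp only [Function.comp] at hi
    linarith

/-- the hump property -/
def HumpProp (f : ℕ → StrongDual ℝ (c0 I)) (c : ℝ) : Prop :=
  ∀ i, ∀ η > 0, ∃ i' > i, ∃ A ∈ I.sets, ∃ y : c0 I, (∀ n, |y.1 n| ≤ ind A n) ∧
      c ≤ f i' y ∧ ∀ j ≤ i, vr (f j) A ≤ η

lemma step1 {f : ℕ → StrongDual ℝ (c0 I)} {c : ℝ} (hc : 0 < c) (h : HumpProp f c) :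
    ∃ (k : ℕ → ℕ) (A : ℕ → Set ℕ) (y : ℕ → c0 I), StrictMono k ∧ (∀ m, A m ∈ I.sets) ∧
      (∀ m n, |(y m).1 n| ≤ ind (A m) n) ∧ (∀ m, c ≤ f (k m) (y m)) ∧
      ∀ m m', m < m' → vr (f (k m)) (A m') ≤ c / 4 * (1 / 2) ^ m' := by
  obtain ⟨s, hs1, hs2⟩ := exists_seq_of_forall_finset_exists
    (α := ℕ × ℕ × Set ℕ × c0 I)
    (fun a => a.2.2.1 ∈ I.sets ∧ (∀ n, |a.2.2.2.1 n| ≤ ind a.2.2.1 n) ∧ c ≤ f a.1 a.2.2.2)
    (fun a b => a.1 < b.1 ∧ a.2.1 < b.2.1 ∧ vr (f a.1) b.2.2.1 ≤ c / 4 * (1 / 2) ^ b.2.1)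
    (by
      intro s _
      set i := s.sup (fun a => a.1) with hi
      set t := s.sup (fun a => a.2.1) + 1 with ht
      obtain ⟨i', hi', A, hA, y, hy1, hy2, hy3⟩ := h i (c / 4 * (1 / 2) ^ t) (by positivity)
      refine ⟨(i', t, A, y), ⟨hA, hy1, hy2⟩, fun a ha => ⟨?_, ?_, ?_⟩⟩
      · exact lt_of_le_of_lt (Finset.le_sup (f := fun a => a.1) ha) hi'
      · exact Nat.lt_succ_of_le (Finset.le_sup (f := fun a => a.2.1) ha)
      · exact hy3 _ (Finset.le_sup (f := fun a => a.1) ha))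
  have hk : StrictMono fun m => (s m).1 := fun a b hab => (hs2 a b hab).1
  have ht : StrictMono fun m => (s m).2.1 := fun a b hab => (hs2 a b hab).2.1
  refine ⟨fun m => (s m).1, fun m => (s m).2.2.1, fun m => (s m).2.2.2, hk,
    fun m => (hs1 m).1, fun m => (hs1 m).2.1, fun m => (hs1 m).2.2, fun m m' hm => ?_⟩
  refine (hs2 m m' hm).2.2.trans ?_
  apply mul_le_mul_of_nonneg_left _ (by positivity)
  exact pow_le_pow_of_le_one (by norm_num) (by norm_num) (ht.le_apply)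

lemma sum_half_le {F : Finset ℕ} (h : ∀ l ∈ F, 0 < l) : ∑ l ∈ F, (1 / 2 : ℝ) ^ l ≤ 1 := by
  have h0 : 0 ∉ F := fun h' => lt_irrefl _ (h 0 h')
  have h1 := summable_geometric_two.sum_le_tsum (insert 0 F) (fun _ _ => by positivity)
  rw [tsum_geometric_two, Finset.sum_insert h0] at h1
  simp only [pow_zero] at h1
  linarith

lemma step2 {g : ℕ → StrongDual ℝ (c0 I)} {C c : ℝ} (hC : ∀ i, ‖g i‖ ≤ C)
    (hc : 0 < c) {A : ℕ → Set ℕ} {y : ℕ → c0 I}
    (hy : ∀ m n, |(y m).1 n| ≤ ind (A m) n) (hg : ∀ m, c ≤ g m (y m))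
    (hv : ∀ m m', m < m' → vr (g m) (A m') ≤ c / 4 * (1 / 2) ^ m')
    {V : Set ℕ} (hV : V ∈ hyperfilter ℕ) (N : ℕ) {δ : ℝ} (hδ : 0 < δ) :
    ∃ m ∈ V, N ≤ m ∧ ∃ D ⊆ A m, 3 * c / 4 ≤ g m (cutX D (y m)) ∧
      {l | vr (g l) D < δ} ∈ hyperfilter ℕ := by
  classical
  have hVi : (V ∩ Ici N).Infinite := by
    have h1 : Ici N ∈ hyperfilter ℕ := by
      apply mem_hyperfilter_of_finite_compl
      rw [compl_Ici]; exact finite_Iio N
    have h2 : V ∩ Ici N ∈ hyperfilter ℕ := inter_mem hV h1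
    intro hfin
    exact notMem_hyperfilter_of_finite hfin h2
  obtain ⟨n0, hn0⟩ := exists_nat_gt (C / δ)
  obtain ⟨F, hF, hFc⟩ := hVi.exists_subset_card_eq n0
  let D : ℕ → Set ℕ := fun m => A m \ ⋃ l ∈ F.filter (fun l => m < l), A l
  have hD : ∀ i ∈ F, ∀ j ∈ F, i ≠ j → Disjoint (D i) (D j) := by
    have key : ∀ i ∈ F, ∀ j ∈ F, i < j → Disjoint (D i) (D j) := by
      intro i _ j hj hij
      rw [Set.disjoint_left]
      intro n hn hn'
      apply hn.2
      simp only [Finset.mem_filter, mem_iUnion]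
      exact ⟨j, ⟨hj, hij⟩, hn'.1⟩
    intro i hi j hj hij
    rcases lt_or_gt_of_ne hij with h | h
    · exact key i hi j hj h
    · exact (key j hj i hi h).symm
  have hex : ∃ m ∈ F, {l | vr (g l) (D m) < δ} ∈ hyperfilter ℕ := by
    by_contra hcon
    push Not at hcon
    have h1 : (⋂ m ∈ F, {l | vr (g l) (D m) < δ}ᶜ) ∈ hyperfilter ℕ := by
      apply uf_biInter
      intro m hm
      exact (Ultrafilter.compl_mem_iff_notMem).2 (hcon m hm)
    obtain ⟨l, hl⟩ := (hyperfilter ℕ).nonempty_of_mem h1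
    simp only [mem_iInter, mem_compl_iff, mem_ofPred_eq, not_lt] at hl
    have h2 : ∑ m ∈ F, δ ≤ ∑ m ∈ F, vr (g l) (D m) := Finset.sum_le_sum fun m hm => hl m hm
    have h3 := sum_vr_le (f := g l) F D hD
    have h4 := vr_le (g l) (⋃ i ∈ F, D i)
    rw [Finset.sum_const, hFc, nsmul_eq_mul] at h2
    have h5 := hC l
    rw [div_lt_iff₀ hδ] at hn0
    linarith
  obtain ⟨m, hmF, hm⟩ := hex
  refine ⟨m, (hF hmF).1, (hF hmF).2, D m, sdiff_subset, ?_, hm⟩
  have h1 : g m (y m) = g m (cutX (D m) (y m)) + g m (cutX (D m)ᶜ (y m)) := by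
    rw [← map_add, cutX_add_compl]
  have h2 : |g m (cutX (D m)ᶜ (y m))| ≤ vr (g m) (⋃ l ∈ F.filter (fun l => m < l), A l) := by
    apply abs_le_vr
    intro n
    by_cases hn : n ∈ A m
    · by_cases hn' : n ∈ ⋃ l ∈ F.filter (fun l => m < l), A l
      · rw [ind_of_mem hn']
        refine (cutX_abs_le _ _ n).trans ((hy m n).trans (ind_le_one _ _))
      · have hnD : n ∉ (D m)ᶜ := fun h => h ⟨hn, hn'⟩
        rw [cutX_of_notMem hnD, abs_zero]
        exact ind_nonneg _ _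
    · have h3 := (cutX_abs_le (D m)ᶜ (y m) n).trans (hy m n)
      rw [ind_of_notMem hn] at h3
      exact h3.trans (ind_nonneg _ _)
  have h3 : vr (g m) (⋃ l ∈ F.filter (fun l => m < l), A l) ≤ c / 4 := by
    refine (vr_biUnion_le _ _).trans ?_
    calc ∑ l ∈ F.filter (fun l => m < l), vr (g m) (A l)
        ≤ ∑ l ∈ F.filter (fun l => m < l), c / 4 * (1 / 2) ^ l :=
          Finset.sum_le_sum fun l hl => hv m l (Finset.mem_filter.1 hl).2
      _ = c / 4 * ∑ l ∈ F.filter (fun l => m < l), (1 / 2 : ℝ) ^ l := by rw [Finset.mul_sum]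
      _ ≤ c / 4 * 1 := mul_le_mul_of_nonneg_left (sum_half_le fun l hl =>
          lt_of_le_of_lt (Nat.zero_le m) (Finset.mem_filter.1 hl).2) (by positivity)
      _ = c / 4 := mul_one _
  have h4 := (abs_le.1 h2).2
  have h5 := hg m
  linarith

lemma step3 {g : ℕ → StrongDual ℝ (c0 I)} {C c : ℝ} (hC : ∀ i, ‖g i‖ ≤ C)
    (hc : 0 < c) {A : ℕ → Set ℕ} {y : ℕ → c0 I} (hA : ∀ m, A m ∈ I.sets)
    (hy : ∀ m n, |(y m).1 n| ≤ ind (A m) n) (hg : ∀ m, c ≤ g m (y m))
    (hv : ∀ m m', m < m' → vr (g m) (A m') ≤ c / 4 * (1 / 2) ^ m') :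
    ∃ (k : ℕ → ℕ) (B : ℕ → Set ℕ) (y' : ℕ → c0 I), StrictMono k ∧ (∀ i, B i ∈ I.sets) ∧
      (∀ i j, i ≠ j → Disjoint (B i) (B j)) ∧ (∀ i n, |(y' i).1 n| ≤ ind (B i) n) ∧
      ∀ i, c / 2 ≤ g (k i) (y' i) := by
  classical
  obtain ⟨s, hs1, hs2⟩ := exists_seq_of_forall_finset_exists
    (α := ℕ × ℕ × Set ℕ)
    (fun a => a.2.2 ⊆ A a.1 ∧ 3 * c / 4 ≤ g a.1 (cutX a.2.2 (y a.1)) ∧
      {l | vr (g l) a.2.2 < c / 4 * (1 / 2) ^ (a.2.1 + 1)} ∈ hyperfilter ℕ)
    (fun a b => a.1 < b.1 ∧ a.2.1 < b.2.1 ∧ vr (g b.1) a.2.2 < c / 4 * (1 / 2) ^ (a.2.1 + 1))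
    (by
      intro s hs
      have hV : (⋂ a ∈ s, {l | vr (g l) a.2.2 < c / 4 * (1 / 2) ^ (a.2.1 + 1)}) ∈
          hyperfilter ℕ := by
        apply uf_biInter
        intro a ha
        exact (hs a ha).2.2
      set N := s.sup (fun a => a.1) + 1 with hN
      set t := s.sup (fun a => a.2.1) + 1 with ht
      obtain ⟨m, hmV, hmN, D, hD, hD1, hD2⟩ := step2 hC hc hy hg hv hV N
        (δ := c / 4 * (1 / 2) ^ (t + 1)) (by positivity)
      refine ⟨(m, t, D), ⟨hD, hD1, hD2⟩, fun a ha => ⟨?_, ?_, ?_⟩⟩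
      · exact lt_of_lt_of_le
          (Nat.lt_succ_of_le (Finset.le_sup (f := fun a : ℕ × ℕ × Set ℕ => a.1) ha)) hmN
      · exact Nat.lt_succ_of_le (Finset.le_sup (f := fun a : ℕ × ℕ × Set ℕ => a.2.1) ha)
      · simp only [mem_iInter, mem_ofPred_eq] at hmV
        exact hmV a ha)
  have hk : StrictMono fun m => (s m).1 := fun a b hab => (hs2 a b hab).1
  have ht : StrictMono fun m => (s m).2.1 := fun a b hab => (hs2 a b hab).2.1
  let B : ℕ → Set ℕ := fun i => (s i).2.2 \ ⋃ l ∈ Finset.range i, (s l).2.2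
  refine ⟨fun m => (s m).1, B, fun i => cutX (B i) (y (s i).1), hk, ?_, ?_, ?_, ?_⟩
  · intro i
    exact I.subset (hA (s i).1) (sdiff_subset.trans (hs1 i).1)
  · have key : ∀ i j, i < j → Disjoint (B i) (B j) := by
      intro i j hij
      rw [Set.disjoint_left]
      intro n hn hn'
      apply hn'.2
      simp only [Finset.mem_range, mem_iUnion]
      exact ⟨i, hij, hn.1⟩
    intro i j hij
    rcases lt_or_gt_of_ne hij with h | h
    · exact key i j h
    · exact (key j i h).symm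
  · intro i n
    by_cases hn : n ∈ B i
    · rw [ind_of_mem hn]
      exact (cutX_abs_le _ _ n).trans ((hy _ n).trans (ind_le_one _ _))
    · rw [cutX_of_notMem hn, abs_zero]; exact ind_nonneg _ _
  · intro i
    have h0 := (hs1 i).2.1
    have h1 : g (s i).1 (cutX (s i).2.2 (y (s i).1)) = g (s i).1 (cutX (B i) (y (s i).1)) +
        g (s i).1 (cutX ((s i).2.2 ∩ ⋃ l ∈ Finset.range i, (s l).2.2) (y (s i).1)) := by
      rw [← map_add, ← cutX_union]
      · congr 2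
        exact (sdiff_union_inter _ _).symm
      · rw [Set.disjoint_left]
        intro n hn hn'
        exact hn.2 hn'.2
    have h2 : |g (s i).1 (cutX ((s i).2.2 ∩ ⋃ l ∈ Finset.range i, (s l).2.2) (y (s i).1))| ≤
        vr (g (s i).1) (⋃ l ∈ Finset.range i, (s l).2.2) := by
      apply abs_le_vr
      intro n
      by_cases hn : n ∈ ⋃ l ∈ Finset.range i, (s l).2.2
      · rw [ind_of_mem hn]
        exact (cutX_abs_le _ _ n).trans ((hy _ n).trans (ind_le_one _ _))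
      · rw [cutX_of_notMem (fun h => hn h.2), abs_zero]; exact ind_nonneg _ _
    have h3 : vr (g (s i).1) (⋃ l ∈ Finset.range i, (s l).2.2) ≤ c / 4 := by
      refine (vr_biUnion_le _ _).trans ?_
      calc ∑ l ∈ Finset.range i, vr (g (s i).1) (s l).2.2
          ≤ ∑ l ∈ Finset.range i, c / 4 * (1 / 2) ^ (l + 1) := by
            refine Finset.sum_le_sum fun l hl => ?_
            refine (hs2 l i (Finset.mem_range.1 hl)).2.2.le.trans ?_
            apply mul_le_mul_of_nonneg_left _ (by positivity)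
            exact pow_le_pow_of_le_one (by norm_num) (by norm_num)
              (Nat.succ_le_succ ht.le_apply)
        _ = c / 4 * ∑ l ∈ Finset.range i, (1 / 2 : ℝ) ^ (l + 1) := by rw [Finset.mul_sum]
        _ ≤ c / 4 * 1 := by
            apply mul_le_mul_of_nonneg_left _ (by positivity)
            have h4 := sum_half_le (F := (Finset.range i).map ⟨Nat.succ, Nat.succ_injective⟩)
              (by intro l hl; simp only [Finset.mem_map, Function.Embedding.coeFn_mk] at hl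
                  obtain ⟨a, _, rfl⟩ := hl; exact Nat.succ_pos a)
            rw [Finset.sum_map] at h4
            exact h4
        _ = c / 4 := mul_one _
    have h4 := (abs_le.1 h2).2
    change c / 2 ≤ g (s i).1 (cutX (B i) (y (s i).1))
    linarith

/-- Disjoint humps. -/
theorem disjoint_humps {f : ℕ → StrongDual ℝ (c0 I)} {C c : ℝ} (hC : ∀ i, ‖f i‖ ≤ C)
    (hc : 0 < c) (h : HumpProp f c) (δ : ℝ) (hδ : 0 < δ) :
    ∃ (κ : ℕ → ℕ) (B : ℕ → Set ℕ) (y : ℕ → c0 I), Function.Injective κ ∧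
      (∀ i, B i ∈ I.sets) ∧ (∀ i j, i ≠ j → Disjoint (B i) (B j)) ∧
      (∀ i n, |(y i).1 n| ≤ ind (B i) n) ∧ (∀ i, c / 2 ≤ f (κ i) (y i)) ∧
      ∀ i, vr (f (κ i)) (⋃ j ∈ {j | j ≠ i}, B j) < δ := by
  obtain ⟨k, A, y, hk, hA, hy, hg, hv⟩ := step1 hc h
  obtain ⟨k', B, y', hk', hB, hd, hy', hg'⟩ := step3 (g := fun m => f (k m))
    (fun i => hC (k i)) hc hA hy hg hv
  obtain ⟨N, hN⟩ := exists_nat_gt (C / δ)
  have hN' : C ≤ N * δ := by rw [div_lt_iff₀ hδ] at hN; exact hN.le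
  obtain ⟨ψ, hψ, hψ'⟩ := rosenthal δ hδ N (fun i => vr (f (k (k' i)))) B
    (fun i A A' h => vr_mono h) (fun i A A' h => vr_union h) hd
    (fun i => (vr_le _ _).trans ((hC _).trans hN'))
  refine ⟨fun i => k (k' (ψ i)), fun i => B (ψ i), fun i => y' (ψ i),
    (hk.injective.comp hk'.injective).comp hψ, fun i => hB _, fun i j hij => hd _ _
      (fun h => hij (hψ h)), fun i => hy' _, fun i => hg' _, hψ'⟩

end Pool.Agent.Lib.MP_fd6cd5_an
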