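import Pool.Agent.Lib.MP_fd6cd5_an.Groth

open Filter Topology Set
open scoped ENNReal

namespace Pool.Agent.Lib.MP_fd6cd5_an

/-- code of the initial segment of length `n` of `x` -/
def code (x : ℕ → Bool) (n : ℕ) : ℕ := Encodable.encode ((List.range n).map x)

lemma code_eq {x y : ℕ → Bool} {n m : ℕ} (h : code x n = code y m) :
    n = m ∧ ∀ i < n, x i = y i := by
  have h1 : (List.range n).map x = (List.range m).map y := Encodable.encode_injective h
  have h2 : n = m := by simpa using congrArg List.length h1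
  subst h2
  refine ⟨rfl, fun i hi => ?_⟩
  exact (List.map_inj_left.1 h1) i (List.mem_range.2 hi)

/-- the branch of `x` -/
def AA (x : ℕ → Bool) : Set ℕ := range (code x)

lemma AA_infinite (x : ℕ → Bool) : (AA x).Infinite :=
  infinite_range_of_injective fun _ _ h => (code_eq h).1

lemma AA_inter {x y : ℕ → Bool} (h : x ≠ y) : (AA x ∩ AA y).Finite := by
  obtain ⟨k, hk⟩ := Function.ne_iff.1 h
  refine ((finite_Iic k).image (code x)).subset ?_
  rintro _ ⟨⟨n, rfl⟩, ⟨m, hm⟩⟩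
  obtain ⟨h1, h2⟩ := code_eq hm.symm
  refine ⟨n, ?_, rfl⟩
  by_contra hc
  exact hk (h2 k (not_le.1 hc))

lemma AA_diff {y : ℕ → Bool} {F : Finset (ℕ → Bool)} (hy : y ∉ F) {E : Set ℕ}
    (hE : E.Finite) : ¬ ((AA y \ E) \ ⋃ x ∈ F, AA x).Finite := by
  intro h
  have h1 : (AA y ∩ ⋃ x ∈ F, AA x).Finite := by
    rw [inter_iUnion₂]
    exact F.finite_toSet.biUnion fun x hx => AA_inter fun h => hy (h ▸ hx)
  apply AA_infinite y
  refine ((h.union h1).union hE).subset ?_
  intro n hn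
  by_cases h2 : n ∈ E
  · exact Or.inr h2
  · by_cases h3 : n ∈ ⋃ x ∈ F, AA x
    · exact Or.inl (Or.inr ⟨hn, h3⟩)
    · exact Or.inl (Or.inl ⟨⟨hn, h2⟩, h3⟩)

/-- the ideal generated by the finite sets and the branches of the members of `S` -/
def JJ (S : Set (ℕ → Bool)) : OmegaIdeal where
  sets := {A | ∃ F : Finset (ℕ → Bool), ↑F ⊆ S ∧ (A \ ⋃ x ∈ F, AA x).Finite}
  union := by
    classical
    rintro A ⟨F, hF, hA⟩ B ⟨G, hG, hB⟩
    refine ⟨F ∪ G, by rw [Finset.coe_union]; exact union_subset hF hG, ?_⟩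
    refine (hA.union hB).subset ?_
    rintro n ⟨hn | hn, hn'⟩
    · exact Or.inl ⟨hn, fun h => hn' (biUnion_mono (fun x hx => Finset.mem_union_left _ hx)
        (fun _ _ => le_rfl) h)⟩
    · exact Or.inr ⟨hn, fun h => hn' (biUnion_mono (fun x hx => Finset.mem_union_right _ hx)
        (fun _ _ => le_rfl) h)⟩
  subset := by
    rintro A ⟨F, hF, hA⟩ B hBA
    exact ⟨F, hF, hA.subset (sdiff_subset_sdiff_left hBA)⟩
  finite := by
    intro A hA
    exact ⟨∅, by simp, hA.subset sdiff_subset⟩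
  proper := by
    rintro ⟨F, _, hF⟩
    obtain ⟨y, hy⟩ := Infinite.exists_notMem_finset F
    exact AA_diff hy finite_empty (hF.subset (sdiff_subset_sdiff_left (subset_univ _)))

/-- the ideals of the family -/
noncomputable def II (S : Set (ℕ → Bool)) : OmegaIdeal := pp (JJ S)

/-- the almost disjoint family of test sets -/
def CC (x : ℕ → Bool) : Set ℕ := {t | (Nat.unpair t).2 ∈ AA x ∧ (Nat.unpair t).1 ≤ (Nat.unpair t).2}

lemma CC_inter {x y : ℕ → Bool} (h : x ≠ y) : (CC x ∩ CC y).Finite := by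
  have h1 := AA_inter h
  obtain ⟨N, hN⟩ := h1.bddAbove
  refine (((finite_Iic N).prod (finite_Iic N)).image (fun p : ℕ × ℕ => Nat.pair p.1 p.2)).subset ?_
  rintro t ⟨⟨ha, hb⟩, ⟨hc, _⟩⟩
  have h2 : (Nat.unpair t).2 ≤ N := hN ⟨ha, hc⟩
  exact ⟨Nat.unpair t, ⟨hb.trans h2, h2⟩, Nat.pair_unpair t⟩

lemma sec_CC (x : ℕ → Bool) (n : ℕ) : sec (CC x) n = AA x \ Iio n := by
  ext k
  simp only [sec, CC, mem_ofPred_eq, Nat.unpair_pair, Set.mem_sdiff, mem_Iio, not_lt]

lemma CC_mem {S : Set (ℕ → Bool)} {x : ℕ → Bool} : CC x ∈ (II S).sets ↔ x ∈ S := by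
  unfold II
  rw [mem_pp]
  constructor
  · intro h
    by_contra hx
    have : {n | sec (CC x) n ∈ (JJ S).sets} = ∅ := by
      rw [eq_empty_iff_forall_notMem]
      rintro n ⟨F, hF, hn⟩
      rw [sec_CC] at hn
      exact AA_diff (fun h => hx (hF h)) (finite_Iio n) hn
    rw [this] at h
    exact Ultrafilter.empty_notMem h
  · intro hx
    have : {n | sec (CC x) n ∈ (JJ S).sets} = univ := by
      rw [eq_univ_iff_forall]
      intro n
      refine ⟨{x}, by simpa using hx, ?_⟩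
      rw [sec_CC]
      refine finite_empty.subset ?_
      rintro k ⟨hk, hk'⟩
      exact hk' (by simpa using hk.1)
    rw [this]; exact univ_mem

end Pool.Agent.Lib.MP_fd6cd5_an
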