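import Pool.Agent.Lib.MP_fd6cd5_an.Disj

open Filter Topology Set
open scoped ENNReal

namespace Pool.Agent.Lib.MP_fd6cd5_an

/-- The hyperplane lemma. -/
lemma hyper (𝒱 : Ultrafilter ℕ) (h𝒱 : ∀ N, Iic N ∉ 𝒱) (H : ℕ → Set ℕ → ℝ)
    (hadd : ∀ j W W', Disjoint W W' → H j (W ∪ W') = H j W + H j W')
    (hsupp : ∀ j W, H j W = H j (W ∩ Iic j)) {a b : ℝ}
    (ha : ∀ W, W ∉ 𝒱 → ∀ᶠ j in atTop, |H j W| ≤ a) (hb : ∀ᶠ j in atTop, b ≤ H j univ) :
    b ≤ 2 * a := by
  have hnext : ∀ N : ℕ, ∃ j > N, (∀ W ⊆ Iic N, |H j W| ≤ a) ∧ b ≤ H j univ := by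
    intro N
    have hfin : {W : Set ℕ | W ⊆ Iic N}.Finite := (finite_Iic N).finite_subsets
    have h1 : ∀ᶠ j in atTop, ∀ W ∈ {W : Set ℕ | W ⊆ Iic N}, |H j W| ≤ a := by
      rw [Filter.eventually_all_finite hfin]
      intro W hW
      exact ha W fun h => h𝒱 N (mem_of_superset h hW)
    obtain ⟨j, ⟨h2, h3⟩, h4⟩ := ((h1.and hb).and (eventually_gt_atTop N)).exists
    exact ⟨j, h4, h2, h3⟩
  choose nx hnx1 hnx2 hnx3 using hnext
  let J : ℕ → ℕ := fun m => nx^[m] 0
  have hJs : ∀ m, J (m + 1) = nx (J m) := fun m => Function.iterate_succ_apply' nx m 0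
  have hJm : StrictMono J := strictMono_nat_of_lt_succ fun m => by rw [hJs]; exact hnx1 _
  let W0 : Set ℕ := {n | ∃ m, n ∈ Ioc (J (2 * m)) (J (2 * m + 1))}
  have hcompl : ∀ j, H j univ = H j W0 + H j W0ᶜ := by
    intro j
    rw [← hadd j _ _ disjoint_compl_right, union_compl_self]
  have hodd : ∀ m, b - a ≤ H (J (2 * m + 1)) W0 := by
    intro m
    have h1 : W0ᶜ ∩ Iic (J (2 * m + 1)) ⊆ Iic (J (2 * m)) := by
      intro n hn
      by_contra hc
      exact hn.1 ⟨m, not_le.1 hc, hn.2⟩
    have h2 := hnx2 (J (2 * m)) _ h1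
    rw [← hJs, ← hsupp] at h2
    have h3 := hnx3 (J (2 * m))
    rw [← hJs, hcompl] at h3
    have := (abs_le.1 h2).2
    linarith
  have heven : ∀ m, b - a ≤ H (J (2 * m + 2)) W0ᶜ := by
    intro m
    have h1 : W0 ∩ Iic (J (2 * m + 2)) ⊆ Iic (J (2 * m + 1)) := by
      rintro n ⟨⟨m', hm'1, hm'2⟩, hn⟩
      have h3 : J (2 * m') < J (2 * m + 2) := lt_of_lt_of_le hm'1 hn
      have h4 := hJm.lt_iff_lt.1 h3
      have h5 : 2 * m' + 1 ≤ 2 * m + 1 := by omega
      exact hm'2.trans (hJm.monotone h5)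
    have h2 := hnx2 (J (2 * m + 1)) _ h1
    rw [← hJs, ← hsupp] at h2
    have h3 := hnx3 (J (2 * m + 1))
    rw [← hJs, hcompl] at h3
    have := (abs_le.1 h2).2
    have e : 2 * m + 1 + 1 = 2 * m + 2 := rfl
    rw [e] at this h3
    linarith
  by_cases hW : W0 ∈ 𝒱
  · have h1 := ha W0ᶜ (Ultrafilter.compl_notMem_iff.2 hW)
    obtain ⟨N, hN⟩ := h1.exists_forall_of_atTop
    have h2 : N ≤ J (2 * N + 2) := by
      have := hJm.le_apply (x := 2 * N + 2)
      omega
    have h3 := (abs_le.1 (hN _ h2)).2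
    have h4 := heven N
    linarith
  · have h1 := ha W0 hW
    obtain ⟨N, hN⟩ := h1.exists_forall_of_atTop
    have h2 : N ≤ J (2 * N + 1) := by
      have := hJm.le_apply (x := 2 * N + 1)
      omega
    have h3 := (abs_le.1 (hN _ h2)).2
    have h4 := hodd N
    linarith

/-- vertical section -/
def sec (A : Set ℕ) (n : ℕ) : Set ℕ := {k | Nat.pair n k ∈ A}

lemma sec_mono {A B : Set ℕ} (h : A ⊆ B) (n : ℕ) : sec A n ⊆ sec B n := fun _ hk => h hk

/-- the ideal of all sets whose `n`-th sections lie in `J` for almost all `n` with respect to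
a fixed nonprincipal ultrafilter -/
def pp (J : OmegaIdeal) : OmegaIdeal where
  sets := {A | {n | sec A n ∈ J.sets} ∈ hyperfilter ℕ}
  union := by
    intro A hA B hB
    refine mem_of_superset (inter_mem hA hB) ?_
    rintro n ⟨h1, h2⟩
    exact J.union h1 h2
  subset := by
    intro A hA B hB
    exact mem_of_superset hA fun n hn => J.subset hn (sec_mono hB n)
  finite := by
    intro A hA
    have : {n | sec A n ∈ J.sets} = univ := by
      rw [eq_univ_iff_forall]
      intro n
      apply J.finite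
      exact hA.preimage (fun a _ b _ h => by
        have := congrArg (fun n => (Nat.unpair n).2) h
        simpa using this)
    change {n | sec A n ∈ J.sets} ∈ hyperfilter ℕ
    rw [this]; exact univ_mem
  proper := by
    intro h
    have : {n | sec univ n ∈ J.sets} = ∅ := by
      rw [eq_empty_iff_forall_notMem]
      intro n hn
      exact J.proper hn
    change {n | sec univ n ∈ J.sets} ∈ hyperfilter ℕ at h
    rw [this] at h
    exact Ultrafilter.empty_notMem h

lemma mem_pp {J : OmegaIdeal} {A : Set ℕ} :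
    A ∈ (pp J).sets ↔ {n | sec A n ∈ J.sets} ∈ hyperfilter ℕ := Iff.rfl

lemma biUnion_mem (J : OmegaIdeal) {ι : Type*} (s : Finset ι) (S : ι → Set ℕ)
    (h : ∀ i ∈ s, S i ∈ J.sets) : (⋃ i ∈ s, S i) ∈ J.sets := by
  classical
  induction s using Finset.induction_on with
  | empty =>
    simp only [Finset.notMem_empty, iUnion_of_empty, iUnion_empty]
    exact J.finite finite_empty
  | insert a s ha ih =>
    rw [Finset.set_biUnion_insert]
    exact J.union (h a (Finset.mem_insert_self _ _))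
      (ih fun i hi => h i (Finset.mem_insert_of_mem hi))

section

variable {I : OmegaIdeal}

lemma supp_of {y : c0 I} {B : Set ℕ} (hy : ∀ n, |y.1 n| ≤ ind B n) {n : ℕ}
    (hn : y.1 n ≠ 0) : n ∈ B := by
  by_contra h
  have := hy n
  rw [ind_of_notMem h] at this
  exact hn (abs_eq_zero.1 (le_antisymm this (abs_nonneg _)))

lemma star {g : ℕ → StrongDual ℝ (c0 I)}
    (hg : ∀ x, Tendsto (fun n => g n x) atTop (𝓝 0)) {δ : ℝ} (hδ : 0 < δ) {B : ℕ → Set ℕ}
    {y : ℕ → c0 I} (hd : ∀ i j, i ≠ j → Disjoint (B i) (B j))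
    (hy : ∀ i n, |(y i).1 n| ≤ ind (B i) n)
    (hv : ∀ i, vr (g i) (⋃ j ∈ {j | j ≠ i}, B j) < δ) {A : Set ℕ} (hA : A ∈ I.sets) :
    ∀ᶠ i in atTop, |g i (cutX A (y i))| ≤ 2 * δ := by
  classical
  let Y : ℕ → ℝ := fun n => if h : ∃ j, n ∈ B j then (y h.choose).1 n else 0
  have hY : ∀ j n, n ∈ B j → Y n = (y j).1 n := by
    intro j n hn
    have hex : ∃ j, n ∈ B j := ⟨j, hn⟩
    have : hex.choose = j := by
      by_contra hne
      exact (Set.disjoint_left.1 (hd _ _ hne)) hex.choose_spec hn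
    change (if h : ∃ j, n ∈ B j then (y h.choose).1 n else 0) = _
    rw [dif_pos hex, this]
  have hY1 : ∀ n, |Y n| ≤ 1 := by
    intro n
    by_cases h : ∃ j, n ∈ B j
    · obtain ⟨j, hj⟩ := h
      rw [hY j n hj]
      exact (hy j n).trans (ind_le_one _ _)
    · change |(if h : ∃ j, n ∈ B j then (y h.choose).1 n else 0)| ≤ 1
      rw [dif_neg h]; simp
  have hYA : ∀ n, |(if n ∈ A then Y n else 0)| ≤ 1 := by
    intro n
    split_ifs
    · exact hY1 n
    · simp
  let w : c0 I := ⟨mkInf (fun n => if n ∈ A then Y n else 0) 1 hYA, c0_of_supp hA (by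
    intro n hn
    rw [mkInf_apply, if_neg hn])⟩
  have hw : ∀ n, w.1 n = if n ∈ A then Y n else 0 := fun n => rfl
  have h1 : ∀ᶠ i in atTop, |g i w| < δ := by
    have := (hg w).abs
    rw [abs_zero] at this
    exact (tendsto_order.1 this).2 _ hδ
  filter_upwards [h1] with i hi
  have h2 : g i w = g i (cutX A (y i)) + g i (cutX (B i)ᶜ w) := by
    rw [← map_add]
    congr 1
    apply ext_c0
    intro n
    rw [add_apply', hw]
    by_cases hB : n ∈ B i
    · have e0 : (cutX (B i)ᶜ w).1 n = 0 := cutX_of_notMem (by simpa using hB)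
      rw [e0, add_zero]
      by_cases hnA : n ∈ A
      · rw [if_pos hnA, cutX_of_mem hnA, hY i n hB]
      · rw [if_neg hnA, cutX_of_notMem hnA]
    · have e0 : (cutX (B i)ᶜ w).1 n = w.1 n := cutX_of_mem (by simpa using hB)
      rw [e0, hw]
      have h0 : (y i).1 n = 0 := by
        by_contra h
        exact hB (supp_of (hy i) h)
      have h0' : (cutX A (y i)).1 n = 0 := by
        have := cutX_abs_le A (y i) n
        rw [h0, abs_zero] at this
        exact abs_eq_zero.1 (le_antisymm this (abs_nonneg _))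
      rw [h0', zero_add]
  have h3 : |g i (cutX (B i)ᶜ w)| ≤ vr (g i) (⋃ j ∈ {j | j ≠ i}, B j) := by
    apply abs_le_vr
    intro n
    by_cases hn : n ∈ ⋃ j ∈ {j | j ≠ i}, B j
    · rw [ind_of_mem hn]
      refine (cutX_abs_le _ _ n).trans ?_
      rw [hw]
      exact hYA n
    · rw [ind_of_notMem hn]
      by_cases hB : n ∈ B i
      · rw [cutX_of_notMem (by simpa using hB), abs_zero]
      · rw [cutX_of_mem (by simpa using hB), hw]
        have h4 : ¬ ∃ j, n ∈ B j := by
          rintro ⟨j, hj⟩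
          apply hn
          simp only [mem_ofPred_eq, mem_iUnion]
          exact ⟨j, fun h => hB (h ▸ hj), hj⟩
        have h5 : Y n = 0 := dif_neg h4
        rw [h5]; simp
  have h4 := hv i
  have h5 : g i (cutX A (y i)) = g i w - g i (cutX (B i)ᶜ w) := by linarith
  rw [h5]
  calc |g i w - g i (cutX (B i)ᶜ w)| ≤ |g i w| + |g i (cutX (B i)ᶜ w)| := abs_sub _ _
    _ ≤ 2 * δ := by linarith

end

lemma final (J : OmegaIdeal) {g : ℕ → StrongDual ℝ (c0 (pp J))}
    (hg : ∀ x, Tendsto (fun n => g n x) atTop (𝓝 0)) {b δ : ℝ} (hδ : 0 < δ)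
    (hb : 10 * δ < b) {B : ℕ → Set ℕ} {y : ℕ → c0 (pp J)} (hB : ∀ i, B i ∈ (pp J).sets)
    (hd : ∀ i j, i ≠ j → Disjoint (B i) (B j))
    (hy : ∀ i n, |(y i).1 n| ≤ ind (B i) n) (hgb : ∀ i, b ≤ g i (y i))
    (hv : ∀ i, vr (g i) (⋃ j ∈ {j | j ≠ i}, B j) < δ) : False := by
  classical
  have hstar := fun (A : Set ℕ) (hA : A ∈ (pp J).sets) => star hg hδ hd hy hv hA
  let P : ℕ → Set ℕ := fun j => {n | sec (B j) n ∈ J.sets}
  have hP : ∀ j, P j ∈ hyperfilter ℕ := fun j => hB j
  have hex : ∀ n, ∃ i, ¬ (i < n ∧ ∀ l ≤ i, n ∈ P l) := fun n => ⟨n, fun h => lt_irrefl _ h.1⟩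
  let ρ : ℕ → ℕ := fun n => Nat.find (hex n)
  have hρ : ∀ n j, j < ρ n → ∀ l ≤ j, n ∈ P l := by
    intro n j hj
    have := Nat.find_min (hex n) hj
    push Not at this
    exact this.2
  have hρp : ∀ j, {n | j < ρ n} ∈ hyperfilter ℕ := by
    intro j
    have h1 : (⋂ l ∈ Finset.range (j + 1), P l) ∈ hyperfilter ℕ :=
      uf_biInter _ _ _ fun l _ => hP l
    have h2 : Ioi j ∈ hyperfilter ℕ := by
      apply mem_hyperfilter_of_finite_compl
      rw [compl_Ioi]; exact finite_Iic j
    refine mem_of_superset (inter_mem h1 h2) ?_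
    rintro n ⟨hn1, hn2⟩
    simp only [mem_iInter, Finset.mem_range] at hn1
    change j < Nat.find (hex n)
    rw [Nat.lt_find_iff]
    intro m hm
    rw [not_not]
    exact ⟨lt_of_le_of_lt hm hn2, fun l hl => hn1 l (by omega)⟩
  let fst : ℕ → ℕ := fun t => (Nat.unpair t).1
  have hfst : ∀ n k, fst (Nat.pair n k) = n := fun n k => by simp [fst]
  let A' : Set ℕ := {t | ∃ j, t ∈ B j ∧ j < ρ (fst t)}
  have hA' : A' ∈ (pp J).sets := by
    rw [mem_pp]
    have : {n | sec A' n ∈ J.sets} = univ := by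
      rw [eq_univ_iff_forall]
      intro n
      change sec A' n ∈ J.sets
      refine J.subset (biUnion_mem J (Finset.range (ρ n)) (fun j => sec (B j) n) ?_) ?_
      · intro j hj
        exact hρ n j (Finset.mem_range.1 hj) j le_rfl
      · rintro k ⟨j, hj1, hj2⟩
        rw [hfst] at hj2
        simp only [Finset.mem_range, mem_iUnion]
        exact ⟨j, hj2, hj1⟩
    rw [this]; exact univ_mem
  let T : Set ℕ → Set ℕ := fun W => {t | ρ (fst t) ∈ W}
  have hT : ∀ W, ρ ⁻¹' W ∉ hyperfilter ℕ → T W ∈ (pp J).sets := by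
    intro W hW
    rw [mem_pp]
    refine mem_of_superset (Ultrafilter.compl_mem_iff_notMem.2 hW) ?_
    intro n hn
    have : sec (T W) n = ∅ := by
      rw [eq_empty_iff_forall_notMem]
      intro k hk
      have : ρ (fst (Nat.pair n k)) ∈ W := hk
      rw [hfst] at this
      exact hn this
    change sec (T W) n ∈ J.sets
    rw [this]
    exact J.finite finite_empty
  have hTd : ∀ W W', Disjoint W W' → Disjoint (T W) (T W') := by
    intro W W' h
    rw [Set.disjoint_left] at h ⊢
    intro t ht ht'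
    exact h ht ht'
  have hysupp : ∀ j t, (y j).1 t ≠ 0 → t ∈ B j := fun j t h => supp_of (hy j) h
  have huniq : ∀ j j' t, t ∈ B j → t ∈ B j' → j = j' := by
    intro j j' t h h'
    by_contra hne
    exact (Set.disjoint_left.1 (hd _ _ hne)) h h'
  have key : b - 2 * δ ≤ 2 * (4 * δ) := by
    refine hyper ((hyperfilter ℕ).map ρ) ?_ (fun j W => g j (cutX (T (W ∩ Iic j)) (y j))) ?_ ?_
      ?_ ?_
    · intro N hN
      have h1 : ρ ⁻¹' (Iic N) ∈ hyperfilter ℕ := hN
      have h2 := inter_mem h1 (hρp N)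
      have h3 : ρ ⁻¹' (Iic N) ∩ {n | N < ρ n} = ∅ := by
        rw [eq_empty_iff_forall_notMem]
        rintro n ⟨ha, hb⟩
        have ha' : ρ n ≤ N := ha
        have hb' : N < ρ n := hb
        omega
      rw [h3] at h2
      exact Ultrafilter.empty_notMem h2
    · intro j W W' hW
      rw [← map_add, ← cutX_union]
      · congr 2
        rw [union_inter_distrib_right]
        rfl
      · exact hTd _ _ (hW.mono inter_subset_left inter_subset_left)
    · intro j W
      rw [inter_assoc, inter_self]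
    · intro W hW
      have hTW := hT W (fun h => hW h)
      have h1 := hstar _ hTW
      have h2 := hstar (T W ∩ A') ((pp J).subset hTW inter_subset_left)
      filter_upwards [h1, h2] with j h1 h2
      have h3 : cutX (T W) (y j) = cutX (T (W ∩ Iic j)) (y j) + cutX (T W ∩ A') (y j) := by
        have e1 : cutX (T W) (y j) = cutX (T (W ∩ Iic j)) (y j) + cutX (T (W \ Iic j)) (y j) := by
          rw [← cutX_union]
          · congr 1
            ext t
            simp only [T, mem_ofPred_eq, mem_union, mem_inter_iff, mem_Iic, Set.mem_sdiff]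
            tauto
          · apply hTd
            rw [Set.disjoint_left]
            intro n hn hn'
            exact hn'.2 hn.2
        rw [e1]
        congr 1
        apply cutX_eq_of
        intro t ht
        have htB := hysupp j t ht
        constructor
        · rintro ⟨ha, hb⟩
          exact ⟨ha, j, htB, not_le.1 hb⟩
        · rintro ⟨ha, j', hj', hb⟩
          have := huniq j j' t htB hj'
          rw [← this] at hb
          exact ⟨ha, not_le.2 hb⟩
      have h4 : g j (cutX (T (W ∩ Iic j)) (y j)) =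
          g j (cutX (T W) (y j)) - g j (cutX (T W ∩ A') (y j)) := by
        rw [h3, map_add]; ring
      rw [h4]
      calc |g j (cutX (T W) (y j)) - g j (cutX (T W ∩ A') (y j))|
          ≤ |g j (cutX (T W) (y j))| + |g j (cutX (T W ∩ A') (y j))| := abs_sub _ _
        _ ≤ 4 * δ := by linarith
    · filter_upwards [hstar _ hA'] with j h1
      have h2 : g j (y j) = g j (cutX (T (univ ∩ Iic j)) (y j)) + g j (cutX A' (y j)) := by
        have e1 : cutX (T (univ ∩ Iic j))ᶜ (y j) = cutX A' (y j) := by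
          apply cutX_eq_of
          intro t ht
          have htB := hysupp j t ht
          constructor
          · intro ha
            refine ⟨j, htB, ?_⟩
            by_contra hb
            exact ha ⟨mem_univ _, not_lt.1 hb⟩
          · rintro ⟨j', hj', hb⟩ ha
            have := huniq j j' t htB hj'
            rw [← this] at hb
            have ha' : ρ (fst t) ≤ j := ha.2
            omega
        rw [← e1, ← map_add, cutX_add_compl]
      have h3 := hgb j
      have h4 := (abs_le.1 h1).2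
      linarith
  linarith

/-- `c_{0,I}` is a Grothendieck space for the ideals `I = pp J`. -/
theorem groth_pp' (J : OmegaIdeal) (f : ℕ → StrongDual ℝ (c0 (pp J)))
    (hf : ∀ x, Tendsto (fun n => f n x) atTop (𝓝 0))
    (Φ₀ : StrongDual ℝ (StrongDual ℝ (c0 (pp J)))) : Tendsto (fun n => Φ₀ (f n)) atTop (𝓝 0) := by
  have key : ∀ (Φ : StrongDual ℝ (StrongDual ℝ (c0 (pp J)))) (ε : ℝ), 0 < ε →
      ∀ᶠ n in atTop, Φ (f n) < ε := by
    intro Φ ε hε
    by_contra hcon
    rw [Filter.not_eventually] at hcon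
    obtain ⟨σ, hσ, hσ'⟩ := extraction_of_frequently_atTop hcon
    let g : ℕ → StrongDual ℝ (c0 (pp J)) := fun n => f (σ n)
    have hg : ∀ x, Tendsto (fun n => g n x) atTop (𝓝 0) := fun x =>
      (hf x).comp hσ.tendsto_atTop
    obtain ⟨C, hC0, hC⟩ := bounded_of_null hg
    obtain ⟨M, hM, z, hzM, hzφ, hz⟩ := approx (qq g) (qq_nonneg g) (qq_par hC) (2 * C)
      (by positivity) (fun x => by rw [mul_assoc]; exact qq_le hC x) g Φ
    obtain ⟨c, hc, hump⟩ := hump hC0 hC hg hε hM (φ := fun i => Φ (g i))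
      (fun i => not_lt.1 (hσ' i)) hzM hzφ hz
    obtain ⟨κ, B, y, hκ, hB, hd, hy, hgb, hv⟩ := disjoint_humps hC hc hump (c / 40)
      (by positivity)
    refine final J (g := fun i => g (κ i)) (fun x => (hg x).comp ?_) (b := c / 2)
      (δ := c / 40) (by positivity) (by linarith) hB hd hy hgb hv
    rw [← Nat.cofinite_eq_atTop]
    exact hκ.tendsto_cofinite
  rw [Metric.tendsto_atTop]
  intro ε hε
  obtain ⟨N, hN⟩ := ((key Φ₀ ε hε).and (key (-Φ₀) ε hε)).exists_forall_of_atTop
  refine ⟨N, fun n hn => ?_⟩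
  obtain ⟨h1, h2⟩ := hN n hn
  rw [Real.dist_eq, sub_zero, abs_lt]
  constructor
  · have : (-Φ₀) (f n) = - Φ₀ (f n) := rfl
    rw [this] at h2
    linarith
  · exact h1

theorem groth_pp (J : OmegaIdeal) : IsGrothendieck (C0 (pp J)) :=
  fun f hf Φ => groth_pp' J f hf Φ

end Pool.Agent.Lib.MP_fd6cd5_an
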