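import Pool.Agent.Lib.MP_fd6cd5_an.Basic

open Filter Topology Set
open scoped ENNReal

namespace Pool.Agent.Lib.MP_fd6cd5_an

/-- Helly's lemma. -/
lemma helly {X : Type*} [NormedAddCommGroup X] [NormedSpace ℝ X]
    (Φ : StrongDual ℝ (StrongDual ℝ X)) (n : ℕ) (f : Fin n → StrongDual ℝ X) {η : ℝ}
    (hη : 0 < η) : ∃ z : X, ‖z‖ ≤ ‖Φ‖ ∧ ∀ i, |f i z - Φ (f i)| ≤ η := by
  by_contra hcon
  push Not at hcon
  let L : X →L[ℝ] (Fin n → ℝ) := ContinuousLinearMap.pi f
  let K : Set (Fin n → ℝ) := L '' Metric.closedBall 0 ‖Φ‖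
  have hKc : Convex ℝ K := (convex_closedBall _ _).linear_image L.toLinearMap
  have hv : (fun i => Φ (f i)) ∉ closure K := by
    intro hmem
    rw [Metric.mem_closure_iff] at hmem
    obtain ⟨b, ⟨z, hz, rfl⟩, hb⟩ := hmem η hη
    have hz' : ‖z‖ ≤ ‖Φ‖ := by simpa using hz
    obtain ⟨i, hi⟩ := hcon z hz'
    have h1 := (dist_le_pi_dist (fun i => Φ (f i)) (L z) i).trans_lt hb
    rw [Real.dist_eq, abs_sub_comm] at h1
    have h2 : L z i = f i z := rfl
    rw [h2] at h1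
    linarith
  obtain ⟨a, s, ha, hs⟩ := geometric_hahn_banach_closed_point hKc.closure isClosed_closure hv
  have harep : ∀ w : Fin n → ℝ, a w = ∑ i, w i * a (Pi.single i 1) := by
    intro w
    conv_lhs => rw [← Finset.univ_sum_single w]
    rw [map_sum]
    refine Finset.sum_congr rfl fun i _ => ?_
    have : (Pi.single i (w i) : Fin n → ℝ) = w i • (Pi.single i 1 : Fin n → ℝ) := by
      rw [← Pi.single_smul]; simp
    rw [this, map_smul, smul_eq_mul]
  let g : StrongDual ℝ X := ∑ i, a (Pi.single i 1) • f i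
  have hg : ∀ z, g z = a (L z) := by
    intro z
    rw [harep]
    simp only [g, sum_apply, smul_apply, smul_eq_mul]
    exact Finset.sum_congr rfl fun i _ => mul_comm _ _
  have hgΦ : Φ g = a (fun i => Φ (f i)) := by
    rw [harep]
    simp only [g, map_sum, map_smul, smul_eq_mul]
    exact Finset.sum_congr rfl fun i _ => mul_comm _ _
  have hz : ∀ z : X, ‖z‖ ≤ ‖Φ‖ → g z < s := by
    intro z hz
    rw [hg]
    exact ha _ (subset_closure ⟨z, by simpa using hz, rfl⟩)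
  have hs0 : 0 < s := by
    have := hz 0 (by rw [norm_zero]; exact norm_nonneg Φ)
    simpa using this
  rcases eq_or_lt_of_le (norm_nonneg Φ) with h0 | h0
  · have h1 : Φ g ≤ ‖Φ‖ * ‖g‖ := (le_abs_self _).trans (Φ.le_opNorm g)
    rw [← h0, zero_mul, hgΦ] at h1
    linarith
  · have h1 : ‖g‖ ≤ s / ‖Φ‖ := by
      refine g.opNorm_le_bound (by positivity) fun x => ?_
      rcases eq_or_ne x 0 with hx | hx
      · simp [hx]
      · have hxn : 0 < ‖x‖ := norm_pos_iff.2 hx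
        have key : ∀ t : ℝ, |t| = 1 → t * g x ≤ s / ‖Φ‖ * ‖x‖ := by
          intro t ht
          have h2 := hz ((t * (‖Φ‖ / ‖x‖)) • x) (by
            rw [norm_smul, Real.norm_eq_abs, abs_mul, ht, one_mul, abs_of_pos (by positivity),
              div_mul_cancel₀ _ hxn.ne'])
          rw [map_smul, smul_eq_mul] at h2
          have h3 : t * g x = (t * (‖Φ‖ / ‖x‖) * g x) * (‖x‖ / ‖Φ‖) := by
            field_simp
          rw [h3]
          have h4 : s / ‖Φ‖ * ‖x‖ = s * (‖x‖ / ‖Φ‖) := by ring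
          rw [h4]
          exact mul_le_mul_of_nonneg_right h2.le (by positivity)
        rw [Real.norm_eq_abs, abs_le]
        constructor
        · have := key (-1) (by simp)
          linarith
        · have := key 1 (by simp)
          linarith
    have h2 : Φ g ≤ ‖Φ‖ * ‖g‖ := (le_abs_self _).trans (Φ.le_opNorm g)
    rw [hgΦ] at h2
    have h3 : ‖Φ‖ * ‖g‖ ≤ s := by
      rw [mul_comm]; rwa [le_div_iff₀ h0] at h1
    linarith

/-- Elements of small diameter in decreasing convex sets, for a quadratic function. -/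
lemma cauchy_pick {X : Type*} [AddCommGroup X] [Module ℝ X] (q : X → ℝ) (hq0 : ∀ x, 0 ≤ q x)
    (hpar : ∀ x y, q ((1 / 2 : ℝ) • (x + y)) + q ((1 / 2 : ℝ) • (x - y)) = (q x + q y) / 2)
    (K : ℕ → Set X) (hK : Antitone K) (hconv : ∀ n, Convex ℝ (K n)) (hne : ∀ n, (K n).Nonempty)
    (C : ℝ) (hC : ∀ x ∈ K 0, q x ≤ C) :
    ∃ z : ℕ → X, (∀ n, z n ∈ K n) ∧
      ∀ ε > 0, ∃ N, ∀ n ≥ N, ∀ m ≥ n, q ((1 / 2 : ℝ) • (z m - z n)) < ε := by
  let d : ℕ → ℝ := fun n => sInf (q '' K n)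
  have hbd : ∀ n, BddBelow (q '' K n) := fun n => ⟨0, by rintro _ ⟨x, _, rfl⟩; exact hq0 x⟩
  have hne' : ∀ n, (q '' K n).Nonempty := fun n => (hne n).image q
  have hdm : Monotone d := fun n m h => csInf_le_csInf (hbd n) (hne' m) (image_mono (hK h))
  have hdC : ∀ n, d n ≤ C := by
    intro n
    obtain ⟨x, hx⟩ := hne n
    exact (csInf_le (hbd n) ⟨x, hx, rfl⟩).trans (hC x (hK (Nat.zero_le n) hx))
  have hbdd : BddAbove (range d) := ⟨C, by rintro _ ⟨n, rfl⟩; exact hdC n⟩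
  have hlim : Tendsto d atTop (𝓝 (⨆ n, d n)) := tendsto_atTop_ciSup hdm hbdd
  have hpick : ∀ n : ℕ, ∃ z ∈ K n, q z < d n + 1 / (n + 1) := by
    intro n
    have : sInf (q '' K n) < d n + 1 / (n + 1) := by
      have : (0 : ℝ) < 1 / (n + 1) := by positivity
      change d n < _
      linarith
    obtain ⟨_, ⟨z, hz, rfl⟩, h⟩ := exists_lt_of_csInf_lt (hne' n) this
    exact ⟨z, hz, h⟩
  choose z hz hzq using hpick
  refine ⟨z, hz, fun ε hε => ?_⟩
  have h1 : ∀ᶠ n in atTop, (⨆ n, d n) - ε < d n := by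
    have := (tendsto_order.1 hlim).1 ((⨆ n, d n) - ε) (by linarith)
    exact this
  have h2 : ∀ᶠ n : ℕ in atTop, 1 / ((n : ℝ) + 1) < ε / 2 := by
    have := tendsto_one_div_add_atTop_nhds_zero_nat (𝕜 := ℝ)
    exact (tendsto_order.1 this).2 _ (by positivity)
  obtain ⟨N, hN⟩ := (h1.and h2).exists_forall_of_atTop
  refine ⟨N, fun n hn m hm => ?_⟩
  have hmid : (1 / 2 : ℝ) • (z m + z n) ∈ K n := by
    have := hconv n (hK hm (hz m)) (hz n) (a := 1 / 2) (b := 1 / 2) (by norm_num) (by norm_num)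
      (by norm_num)
    rwa [← smul_add] at this
  have h3 : d n ≤ q ((1 / 2 : ℝ) • (z m + z n)) := csInf_le (hbd n) ⟨_, hmid, rfl⟩
  have h4 := hpar (z m) (z n)
  have h5 := hzq m
  have h6 := hzq n
  have h7 : d m ≤ ⨆ n, d n := le_ciSup hbdd m
  have h8 := (hN n hn).1
  have h9 := (hN n hn).2
  have h10 : (1 : ℝ) / (m + 1) ≤ 1 / (n + 1) := by
    apply one_div_le_one_div_of_le (by positivity)
    have : (n : ℝ) ≤ m := by exact_mod_cast hm
    linarith
  linarith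

/-- Approximation of a bidual element by a sequence that is Cauchy for a quadratic function. -/
lemma approx {X : Type*} [NormedAddCommGroup X] [NormedSpace ℝ X] (q : X → ℝ)
    (hq0 : ∀ x, 0 ≤ q x)
    (hpar : ∀ x y, q ((1 / 2 : ℝ) • (x + y)) + q ((1 / 2 : ℝ) • (x - y)) = (q x + q y) / 2)
    (C : ℝ) (hC0 : 0 ≤ C) (hC : ∀ x, q x ≤ C * ‖x‖ ^ 2) (f : ℕ → StrongDual ℝ X)
    (Φ : StrongDual ℝ (StrongDual ℝ X)) :
    ∃ M > 0, ∃ z : ℕ → X, (∀ n, ‖z n‖ ≤ M) ∧
      (∀ n, ∀ i < n, |f i (z n) - Φ (f i)| ≤ 1 / (n + 1)) ∧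
      ∀ ε > 0, ∃ N, ∀ n ≥ N, ∀ m ≥ n, q ((1 / 2 : ℝ) • (z m - z n)) < ε := by
  let K : ℕ → Set X := fun n => {z | ‖z‖ ≤ ‖Φ‖ ∧ ∀ i < n, |f i z - Φ (f i)| ≤ 1 / (n + 1)}
  have hKa : Antitone K := by
    intro n m hnm z hz
    refine ⟨hz.1, fun i hi => (hz.2 i (hi.trans_le hnm)).trans ?_⟩
    apply one_div_le_one_div_of_le (by positivity)
    have : (n : ℝ) ≤ m := by exact_mod_cast hnm
    linarith
  have hKc : ∀ n, Convex ℝ (K n) := by
    intro n z hz w hw a b ha hb hab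
    refine ⟨?_, fun i hi => ?_⟩
    · calc ‖a • z + b • w‖ ≤ ‖a • z‖ + ‖b • w‖ := norm_add_le _ _
        _ = a * ‖z‖ + b * ‖w‖ := by
          rw [norm_smul, norm_smul, Real.norm_eq_abs, Real.norm_eq_abs, abs_of_nonneg ha,
            abs_of_nonneg hb]
        _ ≤ a * ‖Φ‖ + b * ‖Φ‖ := add_le_add (mul_le_mul_of_nonneg_left hz.1 ha)
            (mul_le_mul_of_nonneg_left hw.1 hb)
        _ = ‖Φ‖ := by rw [← add_mul, hab, one_mul]
    · have e : f i (a • z + b • w) - Φ (f i) =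
          a * (f i z - Φ (f i)) + b * (f i w - Φ (f i)) := by
        rw [map_add, map_smul, map_smul, smul_eq_mul, smul_eq_mul]
        have : Φ (f i) = (a + b) * Φ (f i) := by rw [hab, one_mul]
        linear_combination -this
      rw [e]
      calc |a * (f i z - Φ (f i)) + b * (f i w - Φ (f i))|
          ≤ |a * (f i z - Φ (f i))| + |b * (f i w - Φ (f i))| := abs_add_le _ _
        _ = a * |f i z - Φ (f i)| + b * |f i w - Φ (f i)| := by
          rw [abs_mul, abs_mul, abs_of_nonneg ha, abs_of_nonneg hb]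
        _ ≤ a * (1 / (n + 1)) + b * (1 / (n + 1)) :=
          add_le_add (mul_le_mul_of_nonneg_left (hz.2 i hi) ha)
            (mul_le_mul_of_nonneg_left (hw.2 i hi) hb)
        _ = 1 / (n + 1) := by rw [← add_mul, hab, one_mul]
  have hKn : ∀ n, (K n).Nonempty := by
    intro n
    obtain ⟨z, hz, hz'⟩ := helly Φ n (fun i => f i) (η := 1 / (n + 1)) (by positivity)
    exact ⟨z, hz, fun i hi => hz' ⟨i, hi⟩⟩
  obtain ⟨z, hzK, hz⟩ := cauchy_pick q hq0 hpar K hKa hKc hKn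
    (C * ‖Φ‖ ^ 2) (fun x hx => (hC x).trans (by
      have := pow_le_pow_left₀ (norm_nonneg x) hx.1 2
      exact mul_le_mul_of_nonneg_left this hC0))
  exact ⟨‖Φ‖ + 1, by positivity, z, fun n => (hzK n).1.trans (by linarith),
    fun n => (hzK n).2, hz⟩

end Pool.Agent.Lib.MP_fd6cd5_an
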