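import Pool.Agent.Lib.MP_fd6cd5_an.Helly

open Filter Topology Set
open scoped ENNReal

namespace Pool.Agent.Lib.MP_fd6cd5_an

variable {I : OmegaIdeal}

lemma isClosed_c0 (I : OmegaIdeal) : IsClosed (c0 I : Set Linf) := by
  rw [← isSeqClosed_iff_isClosed]
  intro x y hx hy ε hε
  have h1 := (Metric.tendsto_atTop.1 hy) (ε / 2) (by positivity)
  obtain ⟨N, hN⟩ := h1
  have h2 := hN N le_rfl
  refine I.subset (hx N (ε / 2) (by positivity)) fun n hn => ?_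
  have h3 := abs_le_norm (x N - y) n
  rw [dist_eq_norm] at h2
  have h4 : (x N - y) n = x N n - y n := rfl
  rw [h4] at h3
  have h5 : ε ≤ |y n| := hn
  change ε / 2 ≤ |x N n|
  have h6 : |y n| ≤ |x N n| + |x N n - y n| := by
    have := abs_sub_abs_le_abs_sub (y n) (x N n)
    rw [abs_sub_comm] at this
    linarith
  linarith

instance : CompleteSpace Linf := inferInstanceAs (CompleteSpace (lp (fun _ : ℕ => ℝ) ∞))

instance (I : OmegaIdeal) : CompleteSpace (c0 I) := (isClosed_c0 I).completeSpace_coe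

lemma bounded_of_null {f : ℕ → StrongDual ℝ (c0 I)}
    (hf : ∀ x, Tendsto (fun n => f n x) atTop (𝓝 0)) : ∃ C > 0, ∀ i, ‖f i‖ ≤ C := by
  have h : ∀ x, ∃ C, ∀ i, ‖f i x‖ ≤ C := by
    intro x
    obtain ⟨C, hC⟩ := (hf x).norm.bddAbove_range
    exact ⟨C, fun i => hC ⟨i, rfl⟩⟩
  obtain ⟨C, hC⟩ := banach_steinhaus h
  exact ⟨|C| + 1, by positivity, fun i => (hC i).trans (by linarith [le_abs_self C])⟩

lemma sq_nb (z : c0 I) : NB (fun n => (z.1 n) ^ 2) := by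
  refine ⟨fun n => sq_nonneg _, ‖z‖ ^ 2, fun n => ?_⟩
  rw [← sq_abs]
  exact pow_le_pow_left₀ (abs_nonneg _) (abs_le_norm' z n) 2

lemma F_sq_le (f : StrongDual ℝ (c0 I)) (z : c0 I) :
    F f (fun n => (z.1 n) ^ 2) ≤ ‖f‖ * ‖z‖ ^ 2 := by
  refine (sq_nb z).F_le_norm (by positivity) fun n => ?_
  rw [← sq_abs]
  exact pow_le_pow_left₀ (abs_nonneg _) (abs_le_norm' z n) 2

lemma F_sq_par (f : StrongDual ℝ (c0 I)) (x y : c0 I) :
    F f (fun n => (((1 / 2 : ℝ) • (x + y)).1 n) ^ 2) +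
      F f (fun n => (((1 / 2 : ℝ) • (x - y)).1 n) ^ 2) =
    (F f (fun n => (x.1 n) ^ 2) + F f (fun n => (y.1 n) ^ 2)) / 2 := by
  rw [← (sq_nb _).F_add (sq_nb _), ← (sq_nb _).F_add (sq_nb _)]
  have h := ((sq_nb x).add (sq_nb y)).F_smul (f := f) (t := 1 / 2) (by norm_num)
  rw [div_eq_inv_mul (F f _), ← one_div (2 : ℝ), ← h]
  congr 1
  funext n
  simp only [smul_apply', add_apply', sub_apply']
  ring

/-- the quadratic functional -/
noncomputable def qq (f : ℕ → StrongDual ℝ (c0 I)) (z : c0 I) : ℝ :=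
  ∑' i, (1 / 2 : ℝ) ^ i * F (f i) (fun n => (z.1 n) ^ 2)

lemma qq_summable {f : ℕ → StrongDual ℝ (c0 I)} {C : ℝ} (hC : ∀ i, ‖f i‖ ≤ C) (z : c0 I) :
    Summable fun i => (1 / 2 : ℝ) ^ i * F (f i) (fun n => (z.1 n) ^ 2) := by
  refine Summable.of_nonneg_of_le (fun i => mul_nonneg (by positivity) (sq_nb z).F_nonneg)
    (fun i => ?_) (summable_geometric_two.mul_right (C * ‖z‖ ^ 2))
  exact mul_le_mul_of_nonneg_left ((F_sq_le _ _).trans
    (mul_le_mul_of_nonneg_right (hC i) (by positivity))) (by positivity)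

lemma qq_nonneg (f : ℕ → StrongDual ℝ (c0 I)) (z : c0 I) : 0 ≤ qq f z :=
  tsum_nonneg fun _ => mul_nonneg (by positivity) (sq_nb z).F_nonneg

lemma qq_par {f : ℕ → StrongDual ℝ (c0 I)} {C : ℝ} (hC : ∀ i, ‖f i‖ ≤ C) (x y : c0 I) :
    qq f ((1 / 2 : ℝ) • (x + y)) + qq f ((1 / 2 : ℝ) • (x - y)) = (qq f x + qq f y) / 2 := by
  unfold qq
  rw [← (qq_summable hC _).tsum_add (qq_summable hC _),
    ← (qq_summable hC _).tsum_add (qq_summable hC _), ← tsum_div_const]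
  congr 1
  funext i
  rw [← mul_add, F_sq_par]
  ring

lemma qq_le {f : ℕ → StrongDual ℝ (c0 I)} {C : ℝ} (hC : ∀ i, ‖f i‖ ≤ C) (z : c0 I) :
    qq f z ≤ 2 * (C * ‖z‖ ^ 2) := by
  rw [← tsum_geometric_two, ← tsum_mul_right]
  refine (qq_summable hC z).tsum_le_tsum (fun i => ?_) (summable_geometric_two.mul_right _)
  exact mul_le_mul_of_nonneg_left ((F_sq_le _ _).trans
    (mul_le_mul_of_nonneg_right (hC i) (by positivity))) (by positivity)

lemma le_qq {f : ℕ → StrongDual ℝ (c0 I)} {C : ℝ} (hC : ∀ i, ‖f i‖ ≤ C) (z : c0 I) (j : ℕ) :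
    (1 / 2 : ℝ) ^ j * F (f j) (fun n => (z.1 n) ^ 2) ≤ qq f z :=
  (qq_summable hC z).le_tsum j fun _ _ => mul_nonneg (by positivity) (sq_nb z).F_nonneg

lemma hump {f : ℕ → StrongDual ℝ (c0 I)} {C : ℝ} (hC0 : 0 < C) (hC : ∀ i, ‖f i‖ ≤ C)
    (hf : ∀ x, Tendsto (fun n => f n x) atTop (𝓝 0))
    {φ : ℕ → ℝ} {ε M : ℝ} (hε : 0 < ε) (hM : 0 < M) (hΦ : ∀ i, ε ≤ φ i) {z : ℕ → c0 I}
    (hzM : ∀ n, ‖z n‖ ≤ M) (hzφ : ∀ n, ∀ i < n, |f i (z n) - φ i| ≤ 1 / (n + 1))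
    (hz : ∀ ε > 0, ∃ N, ∀ n ≥ N, ∀ m ≥ n, qq f ((1 / 2 : ℝ) • (z m - z n)) < ε) :
    ∃ c > 0, ∀ i, ∀ η > 0, ∃ i' > i, ∃ A ∈ I.sets, ∃ y : c0 I, (∀ n, |y.1 n| ≤ ind A n) ∧
      c ≤ f i' y ∧ ∀ j ≤ i, vr (f j) A ≤ η := by
  refine ⟨ε / (8 * M), by positivity, fun i η hη => ?_⟩
  set ε' : ℝ := ε / (4 * C) with hε'
  have hε'0 : 0 < ε' := by positivity
  obtain ⟨N, hN⟩ := hz (ε' ^ 2 * η * (1 / 2) ^ i / 4) (by positivity)
  -- choose `i'`
  have h1 : ∀ᶠ k in atTop, f k (z N) < ε / 4 := (tendsto_order.1 (hf (z N))).2 _ (by positivity)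
  obtain ⟨i', hi'1, hi'2⟩ := (h1.and (eventually_gt_atTop i)).exists
  -- choose `m`
  have h2 : ∀ᶠ n : ℕ in atTop, 1 / ((n : ℝ) + 1) < ε / 4 := by
    have := tendsto_one_div_add_atTop_nhds_zero_nat (𝕜 := ℝ)
    exact (tendsto_order.1 this).2 _ (by positivity)
  obtain ⟨m, ⟨hm1, hm2⟩, hm3⟩ := ((h2.and (eventually_gt_atTop i')).and
    (eventually_ge_atTop N)).exists
  have h3 : 3 * ε / 4 ≤ f i' (z m) := by
    have := hzφ m i' hm2
    have h4 := (abs_le.1 this).1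
    have := hΦ i'
    linarith
  set y0 : c0 I := z m - z N with hy0
  have hy0n : ‖y0‖ ≤ 2 * M := by
    calc ‖z m - z N‖ ≤ ‖z m‖ + ‖z N‖ := norm_sub_le _ _
      _ ≤ M + M := add_le_add (hzM m) (hzM N)
      _ = 2 * M := by ring
  have h5 : ε / 2 ≤ f i' y0 := by rw [hy0, map_sub]; linarith
  let A : Set ℕ := {n | ε' ≤ |y0.1 n|}
  have hA : A ∈ I.sets := y0.2 ε' hε'0
  have h6 : f i' y0 = f i' (cutX A y0) + f i' (cutX Aᶜ y0) := by
    rw [← map_add, cutX_add_compl]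
  have h7 : |f i' (cutX Aᶜ y0)| ≤ ε / 4 := by
    have h8 : ‖cutX Aᶜ y0‖ ≤ ε' := by
      refine norm_le_of' hε'0.le fun n => ?_
      by_cases hn : n ∈ A
      · rw [cutX_of_notMem (by simpa using hn), abs_zero]; exact hε'0.le
      · rw [cutX_of_mem (by simpa using hn)]
        have : ¬ ε' ≤ |y0.1 n| := hn
        linarith
    calc |f i' (cutX Aᶜ y0)| = ‖f i' (cutX Aᶜ y0)‖ := (Real.norm_eq_abs _).symm
      _ ≤ ‖f i'‖ * ‖cutX Aᶜ y0‖ := (f i').le_opNorm _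
      _ ≤ C * ε' := mul_le_mul (hC i') h8 (norm_nonneg _) hC0.le
      _ = ε / 4 := by rw [hε']; field_simp
  have h8 : ε / 4 ≤ f i' (cutX A y0) := by
    have := (abs_le.1 h7).2
    linarith
  refine ⟨i', hi'2, A, hA, (1 / (2 * M)) • cutX A y0, ?_, ?_, ?_⟩
  · intro n
    rw [smul_apply', abs_mul, abs_of_pos (by positivity : (0 : ℝ) < 1 / (2 * M))]
    by_cases hn : n ∈ A
    · rw [cutX_of_mem hn, ind_of_mem hn, one_div, inv_mul_le_iff₀ (by positivity), mul_one]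
      exact (abs_le_norm' y0 n).trans hy0n
    · rw [cutX_of_notMem hn, ind_of_notMem hn]; simp
  · rw [map_smul, smul_eq_mul]
    calc ε / (8 * M) = 1 / (2 * M) * (ε / 4) := by field_simp; norm_num
      _ ≤ 1 / (2 * M) * f i' (cutX A y0) := mul_le_mul_of_nonneg_left h8 (by positivity)
  · intro j hj
    have h9 := hN N le_rfl m hm3
    have h10 := le_qq hC ((1 / 2 : ℝ) • (z m - z N)) j
    have h11 : F (f j) (fun n => (((1 / 2 : ℝ) • (z m - z N)).1 n) ^ 2) =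
        1 / 4 * F (f j) (fun n => (y0.1 n) ^ 2) := by
      rw [← (sq_nb y0).F_smul (by norm_num)]
      congr 1
      funext n
      rw [smul_apply']
      ring
    rw [h11] at h10
    have h12 := vr_cheb (f := f j) (z := y0) hε'0
    have h13 : (1 / 2 : ℝ) ^ i ≤ (1 / 2 : ℝ) ^ j := pow_le_pow_of_le_one (by norm_num)
      (by norm_num) hj
    have h14 : 0 ≤ F (f j) (fun n => (y0.1 n) ^ 2) := (sq_nb y0).F_nonneg
    have h15 : (1 / 2 : ℝ) ^ i * (1 / 4 * F (f j) (fun n => (y0.1 n) ^ 2)) <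
        ε' ^ 2 * η * (1 / 2) ^ i / 4 := by
      refine lt_of_le_of_lt ?_ (h10.trans_lt h9)
      exact mul_le_mul_of_nonneg_right h13 (by positivity)
    have h16 : 0 < (1 / 2 : ℝ) ^ i := by positivity
    have h17 : F (f j) (fun n => (y0.1 n) ^ 2) < ε' ^ 2 * η := by
      by_contra hcon
      push Not at hcon
      have := mul_le_mul_of_nonneg_left hcon h16.le
      linarith
    have h18 : ε' ^ 2 * vr (f j) A ≤ ε' ^ 2 * η := h12.trans h17.le
    exact le_of_mul_le_mul_left h18 (by positivity)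

end Pool.Agent.Lib.MP_fd6cd5_an
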